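import Pool.Agent.Work.MP_223b32_ag.Group

/-!
# Odd functions on transitive sets of size twice an odd prime power
-/

namespace Pool.Agent.Work.MP_223b32_ag

open MulAction

section

variable {G R : Type*} [Group G] [Finite G] [MulAction G R] [Fintype R] [IsPretransitive G R]

/-- **Key lemma, odd case.**  `G` acts transitively on a set `R` of size `2 ℓ^k`, `ℓ` an odd prime,
`bar` is an involution of `R`, `w` is an odd integral function such that the sum of its positive
values is odd and smaller than `ℓ`.  Then a function `e` orthogonal to all translates of `w` is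
even. -/
theorem even_of_orthogonal_odd {ℓ k : ℕ} [hℓ : Fact ℓ.Prime] (hℓ2 : ℓ ≠ 2)
    (hR : Nat.card R = 2 * ℓ ^ k) {bar : R → R}
    (hbar : ∀ x, bar (bar x) = x) (hbarG : ∀ (g : G) (x : R), bar (g • x) = g • bar x)
    {w : R → ℤ} (hw : ∀ x, w (bar x) = -w x)
    (hodd : Odd (∑ x ∈ Finset.univ.filter (fun x => 0 < w x), w x))
    (hlt : ∑ x ∈ Finset.univ.filter (fun x => 0 < w x), w x < ℓ) {e : R → ℤ}
    (he : ∀ g : G, ∑ x, e x * w (g • x) = 0) (x : R) : e (bar x) = e x := by
  classical
  by_contra hx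
  let d : R → ℤ := fun x => e x - e (bar x)
  have hd : d ≠ 0 := by
    intro h
    apply hx
    have := congrFun h x
    simp only [d, Pi.zero_apply] at this
    omega
  have hdbar : ∀ x, d (bar x) = -d x := by
    intro x
    simp only [d, hbar]
    ring
  have hdw : ∀ g : G, ∑ x, d x * w (g • x) = 0 := by
    intro g
    have h1 : ∑ x, e (bar x) * w (g • x) = -∑ x, e x * w (g • x) := by
      rw [← Finset.sum_neg_distrib]
      refine Finset.sum_nbij' bar bar (by simp) (by simp) (fun x _ => hbar x)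
        (fun x _ => hbar x) ?_
      intro x _
      rw [← hbarG, hw]
      ring
    simp only [d, sub_mul, Finset.sum_sub_distrib, he, h1]
    ring
  obtain ⟨c, d', hc, hcd, hd'⟩ := exists_primitive ℓ hℓ.out.one_lt d hd
  have hdbar' : ∀ x, d' (bar x) = -d' x := by
    intro x
    have h1 := hdbar x
    rw [hcd, hcd x] at h1
    have h2 : c * (d' (bar x) + d' x) = 0 := by linarith
    have h3 := (mul_eq_zero.1 h2).resolve_left hc
    omega
  have hdw' : ∀ g : G, ∑ x, d' x * w (g • x) = 0 := by
    intro g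
    have h2 : c * ∑ x, d' x * w (g • x) = 0 := by
      rw [Finset.mul_sum, ← hdw g]
      exact Finset.sum_congr rfl fun x _ => by rw [hcd x]; ring
    exact (mul_eq_zero.1 h2).resolve_left hc
  -- the stable subgroup
  let W : AddSubgroup (R → ZMod ℓ) :=
    { carrier := {u | (∀ x, u (bar x) = -u x) ∧
        ∀ g : G, ∑ x, u x * ((w (g • x) : ℤ) : ZMod ℓ) = 0}
      zero_mem' := by
        refine ⟨fun x => by simp, fun g => by simp⟩
      add_mem' := by
        rintro u v ⟨hu1, hu⟩ ⟨hv1, hv⟩
        refine ⟨fun x => ?_, fun g => ?_⟩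
        · simp only [Pi.add_apply, hu1, hv1]; ring
        · have hu' := hu g
          have hv' := hv g
          simp only [Pi.add_apply, add_mul, Finset.sum_add_distrib, hu', hv', add_zero]
      neg_mem' := by
        rintro u ⟨hu1, hu⟩
        refine ⟨fun x => ?_, fun g => ?_⟩
        · simp only [Pi.neg_apply, hu1]
        · have hu' := hu g
          simp only [Pi.neg_apply, neg_mul, Finset.sum_neg_distrib, hu', neg_zero] }
  let P : Sylow ℓ G := default
  have hWP : ∀ g : P, ∀ u ∈ W, (fun x => u (g⁻¹ • x)) ∈ W := by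
    rintro g u ⟨hu1, hu⟩
    refine ⟨fun x => ?_, fun h => ?_⟩
    · have h1 : g⁻¹ • bar x = bar (g⁻¹ • x) := (hbarG (g⁻¹ : P).1 x).symm
      show u (g⁻¹ • bar x) = -u (g⁻¹ • x)
      rw [h1, hu1]
    · have h1 := hu (h * g.1)
      rw [← h1]
      refine Finset.sum_nbij' (fun x => g⁻¹ • x) (fun x => g • x) (by simp) (by simp)
        (fun x _ => smul_inv_smul g x) (fun x _ => inv_smul_smul g x) ?_
      intro x _
      have h2 : (h * g.1) • (g⁻¹ • x) = h • x := by
        rw [mul_smul]
        congr 1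
        exact smul_inv_smul g x
      rw [h2]
  have hmem : (fun x => ((d' x : ℤ) : ZMod ℓ)) ∈ W := by
    refine ⟨fun x => ?_, fun g => ?_⟩
    · show ((d' (bar x) : ℤ) : ZMod ℓ) = -((d' x : ℤ) : ZMod ℓ)
      rw [hdbar']
      push_cast
      rfl
    · have h1 := congrArg (fun z : ℤ => (z : ZMod ℓ)) (hdw' g)
      push_cast at h1
      exact h1
  obtain ⟨u, ⟨hu1, hu⟩, hu0, hufix⟩ := exists_fixed_ne_zero P.2 W hWP ⟨_, hmem, hd'⟩
  obtain ⟨x0, hx0⟩ := Function.ne_iff.1 hu0
  rw [Pi.zero_apply] at hx0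
  have h2ne : (2 : ZMod ℓ) ≠ 0 := by
    have h1 : ((2 : ℕ) : ZMod ℓ) ≠ 0 := by
      rw [Ne, ZMod.natCast_eq_zero_iff]
      intro h
      exact hℓ2 ((Nat.prime_dvd_prime_iff_eq hℓ.out Nat.prime_two).1 h)
    simpa using h1
  let O : Finset R := Finset.univ.filter (fun x => x ∈ orbit P x0)
  have hO : ∀ x, x ∈ O ↔ x ∈ orbit P x0 := by
    intro x
    simp [O]
  have huO : ∀ x ∈ O, u x = u x0 := by
    intro x hx
    obtain ⟨g, hg⟩ := (hO x).1 hx
    have hg' : g • x0 = x := hg
    rw [← hg', hufix]
  have hdisj : ∀ x ∈ O, bar x ∉ O := by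
    intro x hx hbx
    have h1 := huO _ hbx
    rw [hu1, huO x hx] at h1
    have h2 : (2 : ZMod ℓ) * u x0 = 0 := by
      linear_combination -h1
    rcases mul_eq_zero.1 h2 with h | h
    · exact h2ne h
    · exact hx0 h
  have hOcard : ℓ ^ k ≤ O.card := by
    have h1 := le_card_orbit_sylow P x0 (k := k) (by rw [hR]; exact dvd_mul_left _ _)
    have h2 : Nat.card (orbit P x0) = O.card := by
      rw [Nat.card_eq_card_toFinset (orbit P x0 : Set R)]
      congr 1
      ext x
      simp [O]
    rwa [h2] at h1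
  have hbinj : Function.Injective bar := fun a b hab => by
    rw [← hbar a, hab, hbar]
  have hcover : ∀ x, x ∈ O ∨ bar x ∈ O := by
    have h1 : (O.image bar).card = O.card := Finset.card_image_of_injective _ hbinj
    have h2 : Disjoint O (O.image bar) := by
      rw [Finset.disjoint_left]
      intro a ha hb
      obtain ⟨b, hb', rfl⟩ := Finset.mem_image.1 hb
      exact hdisj b hb' ha
    have h3 : (O ∪ O.image bar).card = O.card + O.card := by
      rw [Finset.card_union_of_disjoint h2, h1]
    have h4 : O ∪ O.image bar = Finset.univ := by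
      apply Finset.eq_univ_of_card
      have h5 := Finset.card_le_univ (O ∪ O.image bar)
      rw [← Nat.card_eq_fintype_card, hR] at *
      omega
    intro x
    have h5 : x ∈ O ∪ O.image bar := by rw [h4]; exact Finset.mem_univ x
    rcases Finset.mem_union.1 h5 with h | h
    · exact Or.inl h
    · obtain ⟨b, hb, rfl⟩ := Finset.mem_image.1 h
      right
      rwa [hbar]
  -- the sum over `O`
  have hsplit : ∀ {A : Type} [AddCommMonoid A] (h : R → A),
      ∑ x, h x = ∑ x ∈ O, h x + ∑ x ∈ O, h (bar x) := by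
    intro A _ h
    have h1 : ∑ x, h x = ∑ x ∈ O, h x + ∑ x ∈ Finset.univ.filter (fun x => x ∉ O), h x := by
      rw [← Finset.sum_filter_add_sum_filter_not Finset.univ (fun x => x ∈ O)]
      congr 1
      apply Finset.sum_congr _ (fun _ _ => rfl)
      ext x
      simp
    rw [h1]
    congr 1
    refine Finset.sum_nbij' bar bar ?_ ?_ (fun x _ => hbar x) (fun x _ => hbar x) ?_
    · intro x hx
      simp only [Finset.mem_filter, Finset.mem_univ, true_and] at hx
      exact (hcover x).resolve_left hx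
    · intro x hx
      simp only [Finset.mem_filter, Finset.mem_univ, true_and]
      exact hdisj x hx
    · intro x _
      rw [hbar]
  have hzero : ((∑ x ∈ O, w x : ℤ) : ZMod ℓ) = 0 := by
    have h1 := hu 1
    simp only [one_smul] at h1
    rw [hsplit] at h1
    have h2 : ∑ x ∈ O, u x * ((w x : ℤ) : ZMod ℓ) = u x0 * ((∑ x ∈ O, w x : ℤ) : ZMod ℓ) := by
      push_cast
      rw [Finset.mul_sum]
      exact Finset.sum_congr rfl fun x hx => by rw [huO x hx]
    have h3 : ∑ x ∈ O, u (bar x) * ((w (bar x) : ℤ) : ZMod ℓ) =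
        u x0 * ((∑ x ∈ O, w x : ℤ) : ZMod ℓ) := by
      rw [← h2]
      refine Finset.sum_congr rfl fun x _ => ?_
      rw [hu1, hw]
      push_cast
      ring
    rw [h2, h3] at h1
    have h4 : (2 : ZMod ℓ) * (u x0 * ((∑ x ∈ O, w x : ℤ) : ZMod ℓ)) = 0 := by
      linear_combination h1
    have h5 := (mul_eq_zero.1 h4).resolve_left h2ne
    exact (mul_eq_zero.1 h5).resolve_left hx0
  rw [ZMod.intCast_zmod_eq_zero_iff_dvd] at hzero
  -- compare with the sum of the positive values
  have habs : ∑ x ∈ O, |w x| = ∑ x ∈ Finset.univ.filter (fun x => 0 < w x), w x := by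
    have h1 := sum_eq_two_mul (bar := bar) hbar (h := fun x => |w x|) (w := w)
      (fun x => by
        show |w (bar x)| = |w x|
        rw [hw, abs_neg]) hw (fun x hx => by
        show |w x| = 0
        rw [hx, abs_zero])
    have h2 := hsplit (fun x => |w x|)
    have h3 : ∑ x ∈ O, |w (bar x)| = ∑ x ∈ O, |w x| :=
      Finset.sum_congr rfl fun x _ => by rw [hw, abs_neg]
    rw [h3] at h2
    have h4 : ∑ x ∈ Finset.univ.filter (fun x => 0 < w x), |w x| =
        ∑ x ∈ Finset.univ.filter (fun x => 0 < w x), w x :=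
      Finset.sum_congr rfl fun x hx => by
        simp only [Finset.mem_filter, Finset.mem_univ, true_and] at hx
        exact abs_of_pos hx
    rw [h4] at h1
    omega
  have hle : |∑ x ∈ O, w x| ≤ ∑ x ∈ O, |w x| := Finset.abs_sum_le_sum_abs _ _
  have hpar : (2 : ℤ) ∣ (∑ x ∈ O, |w x| - ∑ x ∈ O, w x) := by
    rw [← Finset.sum_sub_distrib]
    refine Finset.dvd_sum fun x _ => ?_
    rcases abs_cases (w x) with ⟨h, -⟩ | ⟨h, -⟩
    · rw [h, sub_self]; exact dvd_zero _
    · rw [h]; exact ⟨-w x, by ring⟩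
  rw [habs] at hle hpar
  obtain ⟨r, hr⟩ := hodd
  have hne : ∑ x ∈ O, w x ≠ 0 := by
    intro h
    rw [h] at hpar
    omega
  have h1 := Int.le_of_dvd (abs_pos.2 hne) ((dvd_abs _ _).2 hzero)
  omega

end

end Pool.Agent.Work.MP_223b32_ag
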