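import Pool.Agent.Work.MP_223b32_ag.Defs
import Pool.Agent.Work.MP_223b32_ag.GroupOdd

/-!
# Multiplicative relations between Weil numbers
-/

namespace Pool.Agent.Work.MP_223b32_ag

open Polynomial MulAction

section Setup

variable (f : ℚ[X]) (L : Type*) [Field L] [Algebra ℚ L]

/-- The Galois group of the splitting field acts on the roots. -/
noncomputable instance rootAction : MulAction Gal(L/ℚ) (f.rootSet L) where
  smul σ x := ⟨σ x.1, by
    have hx := x.2
    rw [mem_rootSet] at hx ⊢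
    refine ⟨hx.1, ?_⟩
    have : aeval (σ x.1) f = σ (aeval x.1 f) := by
      rw [← aeval_algHom_apply σ]
    rw [this, hx.2, map_zero]⟩
  one_smul x := rfl
  mul_smul σ τ x := rfl

variable {f}

theorem isPretransitive_of_irreducible [IsSplittingField ℚ L f] (hf : Irreducible f) :
    IsPretransitive Gal(L/ℚ) (f.rootSet L) := by
  refine ⟨fun x y => ?_⟩
  have : IsGalois ℚ L := IsGalois.of_separable_splitting_field hf.separable
  have hx := x.2
  have hy := y.2
  rw [mem_rootSet] at hx hy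
  have hmin : minpoly ℚ x.1 = minpoly ℚ y.1 := by
    have h1 := minpoly.eq_of_irreducible hf hx.2
    have h2 := minpoly.eq_of_irreducible hf hy.2
    rw [← h1, ← h2]
  obtain ⟨σ, hσ⟩ := (isConjRoot_iff_exists_algEquiv (K := ℚ) (L := L)
    (x := y.1) (y := x.1)).1 hmin.symm
  exact ⟨σ, Subtype.ext hσ⟩

theorem card_roots [IsSplittingField ℚ L f] (hf : Irreducible f) :
    Nat.card (f.rootSet L) = f.natDegree := by
  have h := card_rootSet_eq_natDegree (K := L) hf.separable (IsSplittingField.splits L f)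
  rw [← h, Nat.card_eq_fintype_card]

end Setup

section Slope

variable {p : ℕ} [hp : Fact p.Prime] {a : ℕ}

theorem norm_natCast_p : ‖((p : ℕ) : PadicAlgCl p)‖ = (p : ℝ)⁻¹ := by
  have h1 := PadicAlgCl.norm_extends p ((p : ℕ) : ℚ_[p])
  rw [Padic.norm_p] at h1
  rw [← h1]
  congr 1

theorem slope_q (ha : 0 < a) : slope p a (((p ^ a : ℕ)) : PadicAlgCl p) = 1 := by
  have hp1 : (1 : ℝ) < p := by exact_mod_cast hp.out.one_lt
  unfold slope
  rw [Nat.cast_pow, norm_pow, norm_natCast_p, inv_pow, Real.logb_inv, neg_neg]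
  exact Real.logb_self_eq_one (one_lt_pow₀ hp1 ha.ne')

theorem slope_mul {x y : PadicAlgCl p} (hx : x ≠ 0) (hy : y ≠ 0) :
    slope p a (x * y) = slope p a x + slope p a y := by
  unfold slope
  rw [norm_mul, Real.logb_mul (norm_ne_zero_iff.2 hx) (norm_ne_zero_iff.2 hy)]
  ring

theorem slope_pow (x : PadicAlgCl p) (n : ℕ) : slope p a (x ^ n) = n * slope p a x := by
  unfold slope
  rw [norm_pow, Real.logb_pow]
  ring

theorem slope_prod {ι : Type*} (s : Finset ι) (g : ι → PadicAlgCl p) (hg : ∀ i ∈ s, g i ≠ 0) :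
    slope p a (∏ i ∈ s, g i) = ∑ i ∈ s, slope p a (g i) := by
  classical
  induction s using Finset.induction_on with
  | empty => simp [slope]
  | insert i s hi ih =>
    rw [Finset.prod_insert hi, Finset.sum_insert hi, slope_mul (hg i (Finset.mem_insert_self _ _))
      (Finset.prod_ne_zero_iff.2 fun j hj => hg j (Finset.mem_insert_of_mem hj)),
      ih fun j hj => hg j (Finset.mem_insert_of_mem hj)]

end Slope

section Main

variable {p : ℕ} [hp : Fact p.Prime] {a : ℕ} {f : ℚ[X]}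
  {L : Type*} [Field L] [Algebra ℚ L]

theorem aeval_hom {E : Type*} [Field E] [Algebra ℚ E] (ι : L →ₐ[ℚ] E) {x : L}
    (hx : x ∈ f.rootSet L) : aeval (ι x) f = 0 := by
  rw [mem_rootSet] at hx
  rw [aeval_algHom_apply, hx.2, map_zero]

theorem root_ne_zero (toC : L →ₐ[ℚ] ℂ) (hweil : IsWeil (p ^ a) f) {x : L}
    (hx : x ∈ f.rootSet L) : x ≠ 0 := by
  intro h0
  have h1 := hweil _ (aeval_hom toC hx)
  rw [h0, map_zero, norm_zero, zero_pow two_ne_zero] at h1
  have h2 : ((p ^ a : ℕ) : ℝ) ≠ 0 := by exact_mod_cast (pow_pos hp.out.pos a).ne'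
  exact h2 h1.symm

variable [IsSplittingField ℚ L f]

/-- `q / x` is again a root. -/
theorem exists_bar (toC : L →ₐ[ℚ] ℂ) (hweil : IsWeil (p ^ a) f) (hf0 : f ≠ 0) {x : L}
    (hx : x ∈ f.rootSet L) : ((p ^ a : ℕ) : L) / x ∈ f.rootSet L := by
  have hinj : Function.Injective toC := RingHom.injective _
  have h1 : aeval ((starRingEnd ℂ) (toC x)) f = 0 := by
    have h2 := aeval_hom toC hx
    have h3 : aeval ((starRingEnd ℂ) (toC x)) f = (starRingEnd ℂ) (aeval (toC x) f) := by
      rw [aeval_def, aeval_def, hom_eval₂]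
      congr 1
      exact RingHom.ext_rat _ _
    rw [h3, h2, map_zero]
  have h2 : (starRingEnd ℂ) (toC x) ∈ f.rootSet ℂ := (mem_rootSet.2 ⟨hf0, h1⟩)
  rw [← (IsSplittingField.splits L f).image_rootSet toC] at h2
  obtain ⟨y, hy, hyx⟩ := h2
  have h3 : y * x = ((p ^ a : ℕ) : L) := by
    apply hinj
    rw [map_mul, hyx, map_natCast, mul_comm, Complex.mul_conj, Complex.normSq_eq_norm_sq,
      hweil _ (aeval_hom toC hx)]
    norm_cast
  have h4 : ((p ^ a : ℕ) : L) / x = y := by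
    rw [← h3, mul_div_assoc, div_self (root_ne_zero toC hweil hx), mul_one]
  rw [h4]
  exact hy

/-- The involution `x ↦ q / x` on the roots. -/
noncomputable def bar (toC : L →ₐ[ℚ] ℂ) (hweil : IsWeil (p ^ a) f) (hf0 : f ≠ 0)
    (x : f.rootSet L) : f.rootSet L :=
  ⟨((p ^ a : ℕ) : L) / x.1, exists_bar toC hweil hf0 x.2⟩

theorem bar_bar (toC : L →ₐ[ℚ] ℂ) (hweil : IsWeil (p ^ a) f) (hf0 : f ≠ 0) (x : f.rootSet L) :
    bar toC hweil hf0 (bar toC hweil hf0 x) = x := by
  apply Subtype.ext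
  show ((p ^ a : ℕ) : L) / (((p ^ a : ℕ) : L) / x.1) = x.1
  have h0 : ((p ^ a : ℕ) : L) ≠ 0 := by
    intro h0
    have h1 := congrArg toC h0
    rw [map_natCast, map_zero, Nat.cast_eq_zero] at h1
    exact (pow_pos hp.out.pos a).ne' h1
  rw [div_div_cancel₀ h0]

theorem bar_smul (toC : L →ₐ[ℚ] ℂ) (hweil : IsWeil (p ^ a) f) (hf0 : f ≠ 0) (σ : Gal(L/ℚ))
    (x : f.rootSet L) :
    bar toC hweil hf0 (σ • x) = σ • bar toC hweil hf0 x := by
  apply Subtype.ext
  show ((p ^ a : ℕ) : L) / σ x.1 = σ (((p ^ a : ℕ) : L) / x.1)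
  rw [map_div₀, map_natCast]

variable {c : ℝ} {m : PadicAlgCl p → ℤ}

theorem weight_bar (toC : L →ₐ[ℚ] ℂ) (toP : L →ₐ[ℚ] PadicAlgCl p) (ha : 0 < a)
    (hweil : IsWeil (p ^ a) f) (hf0 : f ≠ 0) (hc : 0 < c)
    (hm : ∀ x, aeval x f = 0 → slope p a x = (1 + c * m x) / 2) (x : f.rootSet L) :
    m (toP (bar toC hweil hf0 x).1) = -m (toP x.1) := by
  have h1 := hm _ (aeval_hom toP x.2)
  have h2 := hm _ (aeval_hom toP (bar toC hweil hf0 x).2)
  have h3 : toP (bar toC hweil hf0 x).1 * toP x.1 = ((p ^ a : ℕ) : PadicAlgCl p) := by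
    rw [← map_mul]
    show toP (((p ^ a : ℕ) : L) / x.1 * x.1) = _
    rw [div_mul_cancel₀ _ (root_ne_zero toC hweil x.2), map_natCast]
  have h4 : slope p a (toP (bar toC hweil hf0 x).1) + slope p a (toP x.1) = 1 := by
    rw [← slope_mul, h3, slope_q ha]
    · exact (map_ne_zero toP).2 (root_ne_zero toC hweil (bar toC hweil hf0 x).2)
    · exact (map_ne_zero toP).2 (root_ne_zero toC hweil x.2)
  rw [h1, h2] at h4
  have h5 : c * ((m (toP (bar toC hweil hf0 x).1) : ℝ) + m (toP x.1)) = 0 := by linarith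
  have h6 := (mul_eq_zero.1 h5).resolve_left hc.ne'
  have h7 : m (toP (bar toC hweil hf0 x).1) + m (toP x.1) = 0 := by exact_mod_cast h6
  omega

/-- The sum of the positive weights, computed in the splitting field. -/
theorem sum_pos_weights (toP : L →ₐ[ℚ] PadicAlgCl p) (hf : Irreducible f) :
    ∑ x ∈ (Finset.univ : Finset (f.rootSet L)).filter (fun x => 0 < m (toP x.1)), m (toP x.1) =
      ((f.aroots (PadicAlgCl p)).map fun x => max (m x) 0).sum := by
  classical
  have hinj : Function.Injective toP := RingHom.injective _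
  have hnodup : (f.aroots (PadicAlgCl p)).Nodup := nodup_aroots_iff_of_splits hf.ne_zero
    (IsAlgClosed.splits _) |>.2 hf.separable
  have h1 : ((f.aroots (PadicAlgCl p)).map fun x => max (m x) 0).sum =
      ∑ x ∈ (f.aroots (PadicAlgCl p)).toFinset, max (m x) 0 := by
    rw [Finset.sum_multiset_map_count]
    refine Finset.sum_congr rfl fun x hx => ?_
    rw [Multiset.count_eq_one_of_mem hnodup (Multiset.mem_toFinset.1 hx), one_smul]
  rw [h1, Finset.sum_filter]
  refine Finset.sum_nbij (fun x => toP x.1) ?_ ?_ ?_ ?_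
  · intro x _
    rw [Multiset.mem_toFinset, mem_aroots]
    exact ⟨hf.ne_zero, aeval_hom toP x.2⟩
  · intro x _ y _ hxy
    exact Subtype.ext (hinj hxy)
  · intro y hy
    rw [Finset.mem_coe, Multiset.mem_toFinset, mem_aroots] at hy
    have h1 : y ∈ f.rootSet (PadicAlgCl p) := mem_rootSet.2 hy
    rw [← (IsSplittingField.splits L f).image_rootSet toP] at h1
    obtain ⟨x, hx, rfl⟩ := h1
    exact ⟨⟨x, hx⟩, Finset.mem_coe.2 (Finset.mem_univ _), rfl⟩
  · intro x _
    split_ifs with h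
    · rw [max_eq_left h.le]
    · rw [max_eq_right (not_lt.1 h)]

omit [IsSplittingField ℚ L f] in
/-- If a product of roots is a power of `q` up to a root of unity, then all translates of the
weight vector are orthogonal to the exponent vector. -/
theorem orthogonal_of_prod (toC : L →ₐ[ℚ] ℂ) (toP : L →ₐ[ℚ] PadicAlgCl p) (ha : 0 < a)
    (hweil : IsWeil (p ^ a) f) (hc : 0 < c)
    (hm : ∀ x, aeval x f = 0 → slope p a x = (1 + c * m x) / 2)
    {e : f.rootSet L → ℕ} {n j : ℕ} (hn : 0 < n) (hsum : ∑ x, e x = 2 * j)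
    (hprod : (∏ x, (toC x.1) ^ e x) ^ n = ((p ^ a : ℕ) : ℂ) ^ (n * j))
    (σ : Gal(L/ℚ)) :
    ∑ x, (e x : ℤ) * m (toP (σ • x).1) = 0 := by
  have hinj : Function.Injective toC := RingHom.injective _
  -- the relation in the splitting field
  have h1 : (∏ x : f.rootSet L, x.1 ^ e x) ^ n = ((p ^ a : ℕ) : L) ^ (n * j) := by
    apply hinj
    rw [map_pow, map_prod, map_pow, map_natCast, ← hprod]
    simp_rw [map_pow]
  have h2 := congrArg (fun z => slope p a (toP (σ z))) h1
  simp only [map_pow, map_prod, map_natCast] at h2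
  rw [slope_pow, slope_pow, slope_q ha, slope_prod] at h2
  swap
  · intro x _
    refine pow_ne_zero _ ((map_ne_zero toP).2 ?_)
    exact root_ne_zero toC hweil (σ • x).2
  have h3 : ∀ x : f.rootSet L, slope p a (toP (σ x.1) ^ e x) =
      e x * ((1 + c * m (toP (σ • x).1)) / 2) := by
    intro x
    rw [slope_pow, ← hm _ (aeval_hom toP (σ • x).2)]
    rfl
  simp_rw [h3] at h2
  have h4 : ∑ x : f.rootSet L, (e x : ℝ) * ((1 + c * m (toP (σ • x).1)) / 2) =
      (∑ x, (e x : ℝ)) / 2 + c / 2 * ∑ x, (e x : ℝ) * m (toP (σ • x).1) := by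
    rw [Finset.sum_div, Finset.mul_sum, ← Finset.sum_add_distrib]
    exact Finset.sum_congr rfl fun x _ => by ring
  have h5 : (∑ x, (e x : ℝ)) = 2 * j := by exact_mod_cast congrArg (fun t : ℕ => (t : ℝ)) hsum
  rw [h4, h5] at h2
  have hn' : (n : ℝ) ≠ 0 := by exact_mod_cast hn.ne'
  have h6 : c / 2 * ∑ x, (e x : ℝ) * m (toP (σ • x).1) = 0 := by
    push_cast at h2
    have h7 : (n : ℝ) * (c / 2 * ∑ x, (e x : ℝ) * m (toP (σ • x).1)) = 0 := by
      linear_combination h2
    exact (mul_eq_zero.1 h7).resolve_left hn'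
  have h8 := (mul_eq_zero.1 h6).resolve_left (by positivity)
  exact_mod_cast h8

/-- The theorem with the group theoretic input abstracted. -/
theorem count_of_key (toC : L →ₐ[ℚ] ℂ) (toP : L →ₐ[ℚ] PadicAlgCl p) (ha : 0 < a)
    (hf : Irreducible f) (hweil : IsWeil (p ^ a) f) (hc : 0 < c)
    (hm : ∀ x, aeval x f = 0 → slope p a x = (1 + c * m x) / 2)
    (key : ∀ e : f.rootSet L → ℤ,
      (∀ σ : Gal(L/ℚ), ∑ x, e x * m (toP (σ • x).1) = 0) →
      ∀ x, e (bar toC hweil hf.ne_zero x) = e x)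
    {s : Multiset ℂ} (hs : ∀ z ∈ s, aeval z f = 0) {n j : ℕ} (hn : 0 < n)
    (hcard : s.card = 2 * j) (hprod : s.prod ^ n = ((p ^ a : ℕ) : ℂ) ^ (n * j))
    {z : ℂ} (hz : aeval z f = 0) : s.count (((p ^ a : ℕ) : ℂ) / z) = s.count z := by
  classical
  let e : f.rootSet L → ℕ := fun x => s.count (toC x.1)
  have hmemC : ∀ y : ℂ, aeval y f = 0 → ∃ x : f.rootSet L, toC x.1 = y := by
    intro y hy
    have h1 : y ∈ f.rootSet ℂ := mem_rootSet.2 ⟨hf.ne_zero, hy⟩
    rw [← (IsSplittingField.splits L f).image_rootSet toC] at h1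
    obtain ⟨x, hx, rfl⟩ := h1
    exact ⟨⟨x, hx⟩, rfl⟩
  have hinj0 : Function.Injective toC := RingHom.injective _
  have hinj : Function.Injective fun x : f.rootSet L => toC x.1 :=
    fun x y hxy => Subtype.ext (hinj0 hxy)
  have hsub : s.toFinset ⊆
      (Finset.univ : Finset (f.rootSet L)).image fun x => toC x.1 := by
    intro y hy
    rw [Multiset.mem_toFinset] at hy
    obtain ⟨x, hx⟩ := hmemC y (hs y hy)
    exact Finset.mem_image.2 ⟨x, Finset.mem_univ _, hx⟩
  have hsum : ∑ x, e x = 2 * j := by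
    rw [← hcard, ← Multiset.toFinset_sum_count_eq]
    rw [Finset.sum_subset hsub (fun y _ hy => ?_), Finset.sum_image (fun x _ y _ h => hinj h)]
    rwa [Multiset.mem_toFinset, ← Multiset.count_eq_zero] at hy
  have hprod' : (∏ x, (toC x.1) ^ e x) ^ n = ((p ^ a : ℕ) : ℂ) ^ (n * j) := by
    rw [← hprod, Finset.prod_multiset_count s]
    rw [Finset.prod_subset hsub (fun y _ hy => ?_), Finset.prod_image (fun x _ y _ h => hinj h)]
    rw [Multiset.mem_toFinset, ← Multiset.count_eq_zero] at hy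
    rw [hy, pow_zero]
  have h1 := key (fun x => (e x : ℤ))
    (orthogonal_of_prod toC toP ha hweil hc hm hn hsum hprod')
  obtain ⟨x, hx⟩ := hmemC z hz
  have h2 := h1 x
  have h3 : toC (bar toC hweil hf.ne_zero x).1 = ((p ^ a : ℕ) : ℂ) / z := by
    show toC (((p ^ a : ℕ) : L) / x.1) = _
    rw [map_div₀, map_natCast, hx]
  have h4 : e (bar toC hweil hf.ne_zero x) = e x := by exact_mod_cast h2
  simp only [e, h3, hx] at h4
  exact h4

end Main

section Final

variable {p : ℕ} [hp : Fact p.Prime] {a : ℕ} {f : ℚ[X]} {c : ℝ} {m : PadicAlgCl p → ℤ}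

/-- **Even case**: degree a power of two, the sum of the positive weights odd. -/
theorem count_even (ha : 0 < a) (hf : Irreducible f) (hweil : IsWeil (p ^ a) f) {k : ℕ}
    (hdeg : f.natDegree = 2 ^ k) (hc : 0 < c)
    (hm : ∀ x, aeval x f = 0 → slope p a x = (1 + c * m x) / 2)
    (hodd : Odd ((f.aroots (PadicAlgCl p)).map fun x => max (m x) 0).sum)
    {s : Multiset ℂ} (hs : ∀ z ∈ s, aeval z f = 0) {n j : ℕ} (hn : 0 < n)
    (hcard : s.card = 2 * j) (hprod : s.prod ^ n = ((p ^ a : ℕ) : ℂ) ^ (n * j))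
    {z : ℂ} (hz : aeval z f = 0) : s.count (((p ^ a : ℕ) : ℂ) / z) = s.count z := by
  obtain ⟨L, _, _, hL⟩ : ∃ (L : Type) (_ : Field L) (_ : Algebra ℚ L), IsSplittingField ℚ L f :=
    ⟨f.SplittingField, _, _, IsSplittingField.splittingField f⟩
  have hgal : IsGalois ℚ L := IsGalois.of_separable_splitting_field hf.separable
  have hfin : FiniteDimensional ℚ L := IsSplittingField.finiteDimensional L f
  have hpre := isPretransitive_of_irreducible L hf
  let toC : L →ₐ[ℚ] ℂ := IsAlgClosed.lift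
  let toP : L →ₐ[ℚ] PadicAlgCl p := IsAlgClosed.lift
  refine count_of_key toC toP ha hf hweil hc hm (fun e he x => ?_) hs hn hcard hprod hz
  refine even_of_orthogonal (G := Gal(L/ℚ)) (k := k) ?_
    (bar_bar toC hweil hf.ne_zero) (bar_smul toC hweil hf.ne_zero)
    (w := fun x => m (toP x.1)) (weight_bar toC toP ha hweil hf.ne_zero hc hm) ?_ he x
  · rw [card_roots L hf, hdeg]
  · rw [sum_pos_weights toP hf]
    exact hodd

/-- **Odd case**: degree twice a power of an odd prime `ℓ`, the sum of the positive weights odd and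
smaller than `ℓ`. -/
theorem count_odd (ha : 0 < a) (hf : Irreducible f) (hweil : IsWeil (p ^ a) f) {ℓ k : ℕ}
    (hℓ : ℓ.Prime) (hℓ2 : ℓ ≠ 2) (hdeg : f.natDegree = 2 * ℓ ^ k) (hc : 0 < c)
    (hm : ∀ x, aeval x f = 0 → slope p a x = (1 + c * m x) / 2)
    (hodd : Odd ((f.aroots (PadicAlgCl p)).map fun x => max (m x) 0).sum)
    (hlt : ((f.aroots (PadicAlgCl p)).map fun x => max (m x) 0).sum < ℓ)
    {s : Multiset ℂ} (hs : ∀ z ∈ s, aeval z f = 0) {n j : ℕ} (hn : 0 < n)
    (hcard : s.card = 2 * j) (hprod : s.prod ^ n = ((p ^ a : ℕ) : ℂ) ^ (n * j))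
    {z : ℂ} (hz : aeval z f = 0) : s.count (((p ^ a : ℕ) : ℂ) / z) = s.count z := by
  obtain ⟨L, _, _, hL⟩ : ∃ (L : Type) (_ : Field L) (_ : Algebra ℚ L), IsSplittingField ℚ L f :=
    ⟨f.SplittingField, _, _, IsSplittingField.splittingField f⟩
  have hgal : IsGalois ℚ L := IsGalois.of_separable_splitting_field hf.separable
  have hfin : FiniteDimensional ℚ L := IsSplittingField.finiteDimensional L f
  have hpre := isPretransitive_of_irreducible L hf
  have : Fact ℓ.Prime := ⟨hℓ⟩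
  let toC : L →ₐ[ℚ] ℂ := IsAlgClosed.lift
  let toP : L →ₐ[ℚ] PadicAlgCl p := IsAlgClosed.lift
  refine count_of_key toC toP ha hf hweil hc hm (fun e he x => ?_) hs hn hcard hprod hz
  refine even_of_orthogonal_odd (G := Gal(L/ℚ)) (ℓ := ℓ) (k := k) hℓ2 ?_
    (bar_bar toC hweil hf.ne_zero) (bar_smul toC hweil hf.ne_zero)
    (w := fun x => m (toP x.1)) (weight_bar toC toP ha hweil hf.ne_zero hc hm) ?_ ?_ he x
  · rw [card_roots L hf, hdeg]
  · rw [sum_pos_weights toP hf]
    exact hodd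
  · rw [sum_pos_weights toP hf]
    exact hlt

end Final

end Pool.Agent.Work.MP_223b32_ag
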