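import Mathlib

/-!
# Definitions: Weil polynomials, slopes, Tate classes and the L-function

Let `k = F_q`, `q = p ^ a`, and let `V` be a finite-dimensional complex vector space with an
endomorphism `F`; think of `V = H^1(Ā, Q_l) ⊗ C` (for some embedding of `Q_l` in `C`), `F` the
geometric Frobenius and `A` an abelian variety over `F_q`.  Then `⋀^i V = H^i(Ā, Q_l) ⊗ C`, and
replacing `A` by `A ^ m` replaces `V` by `V ^ m`.
-/

namespace Pool.Agent.Work.MP_223b32_ag

open Polynomial Filter Topology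

/-- The slope `v_q(x)` of an element of the algebraic closure of `Q_p`, `q = p ^ a`: the `p`-adic
valuation normalised by `v_q(q) = 1`. -/
noncomputable def slope (p : ℕ) [Fact p.Prime] (a : ℕ) (x : PadicAlgCl p) : ℝ :=
  -Real.logb ((p : ℝ) ^ a) ‖x‖

/-- All complex roots of `f` have absolute value `√q`. -/
def IsWeil (q : ℕ) (f : ℚ[X]) : Prop :=
  ∀ z : ℂ, aeval z f = 0 → ‖z‖ ^ 2 = q

variable {V : Type*} [AddCommGroup V] [Module ℂ V]

/-- The classes of degree `2 i` (elements of `⋀^(2i) V`, as a subspace of the exterior algebra) on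
which `F` acts as multiplication by `Q ^ i`. -/
noncomputable def tateClasses (F : Module.End ℂ V) (Q : ℂ) (i : ℕ) :
    Submodule ℂ (ExteriorAlgebra ℂ V) :=
  ⋀[ℂ]^(2 * i) V ⊓
    LinearMap.ker ((ExteriorAlgebra.map F).toLinearMap - Q ^ i • LinearMap.id)

/-- `L(s) = det(1 - Q^{-s} F | ⋀^(2i) V)^{-1}`. -/
noncomputable def Lfun [Module.Finite ℂ V] (F : Module.End ℂ V) (Q : ℝ) (i : ℕ) (s : ℂ) : ℂ :=
  (LinearMap.det (1 - ((Q : ℂ) ^ (-s)) • exteriorPower.map (2 * i) F))⁻¹

/-- `L` has a pole of order `r` at the real point `s₀`: the product `(s - s₀)^r L(s)` has a finite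
nonzero limit as `s → s₀+` along the reals. -/
def HasPoleOrder (L : ℂ → ℂ) (s₀ : ℝ) (r : ℕ) : Prop :=
  ∃ c : ℂ, c ≠ 0 ∧
    Tendsto (fun s : ℝ => (((s - s₀ : ℝ) : ℂ)) ^ r * L (s : ℂ)) (𝓝[>] s₀) (𝓝 c)

end Pool.Agent.Work.MP_223b32_ag
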