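import Mathlib

/-!
# Odd functions on transitive sets of prime power size
-/

namespace Pool.Agent.Work.MP_223b32_ag

open MulAction

section Fixed

variable {ℓ : ℕ} [Fact ℓ.Prime] {Γ R : Type*} [Group Γ] [MulAction Γ R] [Finite R]

/-- An `ℓ`-group acting on a nonzero subgroup of `R → ZMod ℓ` has a nonzero fixed element. -/
theorem exists_fixed_ne_zero (hΓ : IsPGroup ℓ Γ) (W : AddSubgroup (R → ZMod ℓ))
    (hW : ∀ g : Γ, ∀ u ∈ W, (fun x => u (g⁻¹ • x)) ∈ W) (hne : ∃ u ∈ W, u ≠ 0) :
    ∃ u ∈ W, u ≠ 0 ∧ ∀ (g : Γ) (x : R), u (g • x) = u x := by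
  classical
  let _ : Fintype R := Fintype.ofFinite R
  let act : MulAction Γ W :=
    { smul := fun g u => ⟨fun x => u.1 (g⁻¹ • x), hW g u.1 u.2⟩
      one_smul := fun u => by
        apply Subtype.ext
        funext x
        show u.1 ((1 : Γ)⁻¹ • x) = u.1 x
        rw [inv_one, one_smul]
      mul_smul := fun g h u => by
        apply Subtype.ext
        funext x
        show u.1 ((g * h)⁻¹ • x) = u.1 (h⁻¹ • (g⁻¹ • x))
        rw [mul_inv_rev, mul_smul] }
  have hfin : Finite W := inferInstance
  have hdvd : ℓ ∣ Nat.card W := by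
    have h1 : Nat.card W ∣ Nat.card (R → ZMod ℓ) := AddSubgroup.card_addSubgroup_dvd_card W
    have h2 : Nat.card (R → ZMod ℓ) = ℓ ^ Nat.card R := by
      rw [Nat.card_fun, Nat.card_zmod]
    rw [h2, Nat.dvd_prime_pow (Fact.out : ℓ.Prime)] at h1
    obtain ⟨r, -, hr⟩ := h1
    rcases Nat.eq_zero_or_pos r with rfl | hr0
    · exfalso
      obtain ⟨u, hu, hu0⟩ := hne
      rw [pow_zero] at hr
      have h3 : Subsingleton W := (Nat.card_eq_one_iff_unique.1 hr).1
      have h4 : (⟨u, hu⟩ : W) = 0 := Subsingleton.elim _ _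
      exact hu0 (congrArg Subtype.val h4)
    · rw [hr]
      exact dvd_pow_self ℓ hr0.ne'
  have h0 : (0 : W) ∈ fixedPoints Γ W := by
    intro g
    apply Subtype.ext
    rfl
  obtain ⟨b, hb, hb0⟩ := hΓ.exists_fixed_point_of_prime_dvd_card_of_fixed_point W hdvd h0
  refine ⟨b.1, b.2, ?_, ?_⟩
  · intro h
    exact hb0 (Subtype.ext h.symm)
  · intro g x
    have h1 : g • b = b := hb g
    have h2 := congrArg (fun w : W => w.1 (g • x)) h1
    have h3 : b.1 (g⁻¹ • (g • x)) = b.1 (g • x) := h2
    rw [inv_smul_smul] at h3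
    exact h3.symm

end Fixed

section Sylow

variable {ℓ : ℕ} [hℓ : Fact ℓ.Prime] {G R : Type*} [Group G] [Finite G] [MulAction G R] [Finite R]
  [IsPretransitive G R]

/-- The orbits of a Sylow `ℓ`-subgroup on a transitive set have size at least the `ℓ`-part of the
size of the set. -/
theorem le_card_orbit_sylow (P : Sylow ℓ G) (x : R) {k : ℕ} (hk : ℓ ^ k ∣ Nat.card R) :
    ℓ ^ k ≤ Nat.card (orbit P x) := by
  classical
  let _ : Fintype G := Fintype.ofFinite G
  let _ : Fintype R := Fintype.ofFinite R
  let _ : Fintype P := Fintype.ofFinite P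
  have hG : Nat.card R * Nat.card (stabilizer G x) = Nat.card G := by
    have h1 := card_orbit_mul_card_stabilizer_eq_card_group G x
    simp only [← Nat.card_eq_fintype_card] at h1
    rw [← h1, orbit_eq_univ, Nat.card_congr (Equiv.Set.univ R)]
  have hP : Nat.card (orbit P x) * Nat.card (stabilizer P x) = Nat.card P := by
    have h1 := card_orbit_mul_card_stabilizer_eq_card_group P x
    simpa only [← Nat.card_eq_fintype_card] using h1
  -- the stabilizer in `P` injects in the stabilizer in `G`
  have hstab : Nat.card (stabilizer P x) ∣ Nat.card (stabilizer G x) := by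
    let f : stabilizer P x →* stabilizer G x :=
      { toFun := fun g => ⟨g.1.1, g.2⟩
        map_one' := rfl
        map_mul' := fun _ _ => rfl }
    have hf : Function.Injective f := by
      intro g h hgh
      apply Subtype.ext
      apply Subtype.ext
      exact congrArg (fun z : stabilizer G x => z.1) hgh
    have h1 : Nat.card (stabilizer P x) = Nat.card f.range :=
      Nat.card_congr (MonoidHom.ofInjective hf).toEquiv
    rw [h1]
    exact Subgroup.card_subgroup_dvd_card _
  obtain ⟨b, hb⟩ := IsPGroup.iff_card.1 (P.2.to_subgroup (stabilizer P x))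
  obtain ⟨a, ha⟩ := IsPGroup.iff_card.1 P.2
  obtain ⟨c, hc⟩ := P.2.card_orbit x
  have hc' : Nat.card (orbit P x) = ℓ ^ c := hc
  have ha' : Nat.card P = ℓ ^ a := ha
  have hb' : Nat.card (stabilizer P x) = ℓ ^ b := hb
  rw [hc', hb', ha', ← pow_add] at hP
  have hcb : c + b = a := Nat.pow_right_injective hℓ.out.two_le hP
  have hdiv : ℓ ^ (k + b) ∣ Nat.card G := by
    rw [← hG, pow_add]
    exact Nat.mul_dvd_mul hk (hb' ▸ hstab)
  have h1 : ℓ ^ (k + b) ∣ Nat.card P := P.pow_dvd_card_of_pow_dvd_card hdiv
  rw [ha', Nat.pow_dvd_pow_iff_le_right hℓ.out.one_lt] at h1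
  rw [hc']
  exact Nat.pow_le_pow_right hℓ.out.pos (by omega)

end Sylow

theorem zmod_two_eq_one : ∀ z : ZMod 2, z ≠ 0 → z = 1 := by decide

section Odd

variable {G R : Type*} [Group G] [Finite G] [MulAction G R] [Fintype R] [IsPretransitive G R]

theorem sum_eq_two_mul {bar : R → R} (hbar : ∀ x, bar (bar x) = x) {h w : R → ℤ}
    (hh : ∀ x, h (bar x) = h x) (hw : ∀ x, w (bar x) = -w x) (h0 : ∀ x, w x = 0 → h x = 0) :
    ∑ x, h x = 2 * ∑ x ∈ Finset.univ.filter (fun x => 0 < w x), h x := by
  classical
  have h1 : ∑ x, h x = ∑ x ∈ Finset.univ.filter (fun x => 0 < w x), h x +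
      ∑ x ∈ Finset.univ.filter (fun x => ¬ 0 < w x), h x :=
    (Finset.sum_filter_add_sum_filter_not _ _ _).symm
  have h2 : ∑ x ∈ Finset.univ.filter (fun x => ¬ 0 < w x), h x =
      ∑ x ∈ Finset.univ.filter (fun x => w x < 0), h x := by
    refine (Finset.sum_subset ?_ ?_).symm
    · intro x hx
      simp only [Finset.mem_filter, Finset.mem_univ, true_and] at hx ⊢
      omega
    · intro x hx hx'
      simp only [Finset.mem_filter, Finset.mem_univ, true_and] at hx hx'
      exact h0 x (by omega)
  have h3 : ∑ x ∈ Finset.univ.filter (fun x => w x < 0), h x =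
      ∑ x ∈ Finset.univ.filter (fun x => 0 < w x), h x := by
    refine Finset.sum_nbij' bar bar ?_ ?_ ?_ ?_ ?_
    · intro x hx
      simp only [Finset.mem_filter, Finset.mem_univ, true_and] at hx ⊢
      rw [hw]; omega
    · intro x hx
      simp only [Finset.mem_filter, Finset.mem_univ, true_and] at hx ⊢
      rw [hw]; omega
    · intro x _; exact hbar x
    · intro x _; exact hbar x
    · intro x _; exact (hh x).symm
  rw [h1, h2, h3]
  ring

omit [Fintype R] in
/-- Descent: a nonzero integral function is a multiple of one that is nonzero modulo `ℓ`. -/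
theorem exists_primitive (ℓ : ℕ) (hℓ : 1 < ℓ) (d : R → ℤ) (hd : d ≠ 0) :
    ∃ (c : ℤ) (d' : R → ℤ), c ≠ 0 ∧ (∀ x, d x = c * d' x) ∧
      (fun x => ((d' x : ℤ) : ZMod ℓ)) ≠ 0 := by
  classical
  by_contra hcon
  push Not at hcon
  -- all powers of ℓ divide d
  have key : ∀ n : ℕ, ∀ x, ((ℓ : ℤ) ^ n) ∣ d x := by
    intro n
    induction n with
    | zero => intro x; simp
    | succ n ih =>
      choose d' hd' using ih
      have hℓn : ((ℓ : ℤ) ^ n) ≠ 0 := pow_ne_zero _ (by exact_mod_cast (by omega : ℓ ≠ 0))
      have h1 := hcon _ d' hℓn hd'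
      intro x
      have h2 : ((d' x : ℤ) : ZMod ℓ) = 0 := congrFun h1 x
      rw [ZMod.intCast_zmod_eq_zero_iff_dvd] at h2
      obtain ⟨r, hr⟩ := h2
      rw [hd' x, hr]
      exact ⟨r, by ring⟩
  apply hd
  funext x
  by_contra hx
  have hx' : d x ≠ 0 := hx
  obtain ⟨n, hn⟩ : ∃ n : ℕ, (d x).natAbs < ℓ ^ n := ⟨(d x).natAbs, Nat.lt_pow_self hℓ⟩
  have h1 := key n x
  have h2 : (ℓ ^ n) ∣ (d x).natAbs := by
    have := Int.natAbs_dvd_natAbs.2 h1
    simpa [Int.natAbs_pow] using this
  have := Nat.le_of_dvd (Int.natAbs_pos.2 hx') h2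
  omega

/-- **Key lemma, even case.**  `G` acts transitively on a set `R` of size a power of two, `bar` is
an involution of `R`, `w` is an odd integral function (`w (bar x) = - w x`) commuting with the
action in the sense of `hbarG`, such that the sum of its positive values is odd.  Then a function
`e` orthogonal to all translates of `w` is even. -/
theorem even_of_orthogonal {k : ℕ} (hR : Nat.card R = 2 ^ k) {bar : R → R}
    (hbar : ∀ x, bar (bar x) = x) (hbarG : ∀ (g : G) (x : R), bar (g • x) = g • bar x)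
    {w : R → ℤ} (hw : ∀ x, w (bar x) = -w x)
    (hodd : Odd (∑ x ∈ Finset.univ.filter (fun x => 0 < w x), w x)) {e : R → ℤ}
    (he : ∀ g : G, ∑ x, e x * w (g • x) = 0) (x : R) : e (bar x) = e x := by
  classical
  have : Fact (Nat.Prime 2) := ⟨Nat.prime_two⟩
  by_contra hx
  let d : R → ℤ := fun x => e x - e (bar x)
  have hd : d ≠ 0 := by
    intro h
    apply hx
    have := congrFun h x
    simp only [d, Pi.zero_apply] at this
    omega
  have hdbar : ∀ x, d (bar x) = -d x := by
    intro x
    simp only [d, hbar]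
    ring
  -- `d` is orthogonal to all translates of `w`
  have hdw : ∀ g : G, ∑ x, d x * w (g • x) = 0 := by
    intro g
    have h1 : ∑ x, e (bar x) * w (g • x) = -∑ x, e x * w (g • x) := by
      rw [← Finset.sum_neg_distrib]
      refine Finset.sum_nbij' bar bar (by simp) (by simp) (fun x _ => hbar x)
        (fun x _ => hbar x) ?_
      intro x _
      rw [← hbarG, hw]
      ring
    simp only [d, sub_mul, Finset.sum_sub_distrib, he, h1]
    ring
  obtain ⟨c, d', hc, hcd, hd'⟩ := exists_primitive 2 (by norm_num) d hd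
  have hdbar' : ∀ x, d' (bar x) = -d' x := by
    intro x
    have h1 := hdbar x
    rw [hcd, hcd x] at h1
    have h2 : c * (d' (bar x) + d' x) = 0 := by linarith
    have h3 := (mul_eq_zero.1 h2).resolve_left hc
    omega
  have hdw' : ∀ g : G, ∑ x ∈ Finset.univ.filter (fun x => 0 < w (g • x)),
      d' x * w (g • x) = 0 := by
    intro g
    have h1 : ∑ x, d' x * w (g • x) = 0 := by
      have h2 : c * ∑ x, d' x * w (g • x) = 0 := by
        rw [Finset.mul_sum, ← hdw g]
        exact Finset.sum_congr rfl fun x _ => by rw [hcd x]; ring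
      exact (mul_eq_zero.1 h2).resolve_left hc
    have h3 := sum_eq_two_mul (bar := bar) hbar (h := fun x => d' x * w (g • x))
      (w := fun x => w (g • x)) (fun x => by
        show d' (bar x) * w (g • bar x) = d' x * w (g • x)
        rw [← hbarG, hw, hdbar']; ring) (fun x => by
        show w (g • bar x) = -w (g • x)
        rw [← hbarG, hw]) (fun x hx => by
        show d' x * w (g • x) = 0
        have hx' : w (g • x) = 0 := hx
        rw [hx', mul_zero])
    rw [h1] at h3
    omega
  -- the stable subgroup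
  let W : AddSubgroup (R → ZMod 2) :=
    { carrier := {u | ∀ g : G, ∑ x ∈ Finset.univ.filter (fun x => 0 < w (g • x)),
        u x * ((w (g • x) : ℤ) : ZMod 2) = 0}
      zero_mem' := by
        intro g
        simp
      add_mem' := by
        intro u v hu hv g
        have hu' := hu g
        have hv' := hv g
        simp only [Pi.add_apply, add_mul, Finset.sum_add_distrib, hu', hv', add_zero]
      neg_mem' := by
        intro u hu g
        have hu' := hu g
        simp only [Pi.neg_apply, neg_mul, Finset.sum_neg_distrib, hu', neg_zero] }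
  let P : Sylow 2 G := default
  have hWP : ∀ g : P, ∀ u ∈ W, (fun x => u (g⁻¹ • x)) ∈ W := by
    intro g u hu h
    have h1 := hu (h * g.1)
    rw [← h1]
    refine Finset.sum_nbij' (fun x => g⁻¹ • x) (fun x => g • x) ?_ ?_ ?_ ?_ ?_
    · intro x hx
      simp only [Finset.mem_filter, Finset.mem_univ, true_and] at hx ⊢
      have h2 : (h * g.1) • (g⁻¹ • x) = h • x := by
        rw [mul_smul]
        congr 1
        exact smul_inv_smul g x
      rwa [h2]
    · intro x hx
      simp only [Finset.mem_filter, Finset.mem_univ, true_and] at hx ⊢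
      have h2 : h • (g • x) = (h * g.1) • x := by
        rw [mul_smul]
        rfl
      rwa [h2]
    · intro x _; exact smul_inv_smul g x
    · intro x _; exact inv_smul_smul g x
    · intro x _
      have h2 : (h * g.1) • (g⁻¹ • x) = h • x := by
        rw [mul_smul]
        congr 1
        exact smul_inv_smul g x
      rw [h2]
  obtain ⟨u, hu, hu0, hufix⟩ := exists_fixed_ne_zero P.2 W hWP
    ⟨fun x => ((d' x : ℤ) : ZMod 2), fun g => by
      have h1 := congrArg (fun z : ℤ => (z : ZMod 2)) (hdw' g)
      push_cast at h1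
      exact h1, hd'⟩
  -- `P` is transitive, so `u` is constant equal to one
  have htrans : ∀ x y : R, ∃ g : P, g • x = y := by
    intro x y
    have h1 := le_card_orbit_sylow P x (k := k) (by rw [hR])
    have h2 : orbit P x = Set.univ := by
      apply Set.eq_of_subset_of_ncard_le (Set.subset_univ _)
      rw [Set.ncard_univ, hR]
      exact h1
    have h3 : y ∈ orbit P x := by rw [h2]; trivial
    exact h3
  have huconst : ∀ x y : R, u x = u y := by
    intro x y
    obtain ⟨g, hg⟩ := htrans y x
    rw [← hg, hufix]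
  have hone : ∀ x, u x = 1 := by
    intro x
    obtain ⟨y, hy⟩ := Function.ne_iff.1 hu0
    rw [huconst x y]
    exact zmod_two_eq_one _ hy
  have hfinal := hu 1
  simp only [one_smul, hone, one_mul] at hfinal
  obtain ⟨r, hr⟩ := hodd
  have h1 : ((∑ x ∈ Finset.univ.filter (fun x => 0 < w x), w x : ℤ) : ZMod 2) = 0 := by
    push_cast
    exact hfinal
  rw [hr, ZMod.intCast_zmod_eq_zero_iff_dvd] at h1
  have h2 : ((2 : ℕ) : ℤ) = 2 := rfl
  rw [h2] at h1
  omega

end Odd

end Pool.Agent.Work.MP_223b32_ag
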