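import Pool.Agent.Work.MP_223b32_ag.Group

/-!
# Odd functions on transitive sets: exactly one pair of zeros
-/

namespace Pool.Agent.Work.MP_223b32_ag

open MulAction

section

variable {G R : Type*} [Group G] [Finite G] [MulAction G R] [Fintype R] [IsPretransitive G R]

omit [Finite G] in
/-- **Key lemma, almost ordinary case.**  `G` acts transitively on `R`, `bar` is an involution
of `R`, `w` is an odd function with values in `{-1, 0, 1}` vanishing exactly on `z` and `bar z` and
having an odd number of positive values.  Then a function `e` orthogonal to all translates of `w` is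
even. -/
theorem even_of_orthogonal_almost {bar : R → R}
    (hbar : ∀ x, bar (bar x) = x) (hbarG : ∀ (g : G) (x : R), bar (g • x) = g • bar x)
    (hbne : ∀ x, bar x ≠ x)
    {w : R → ℤ} (hw : ∀ x, w (bar x) = -w x) (hw1 : ∀ x, |w x| ≤ 1) {z : R}
    (hz : ∀ x, w x = 0 ↔ x = z ∨ x = bar z)
    (hodd : Odd (∑ x ∈ Finset.univ.filter (fun x => 0 < w x), w x)) {e : R → ℤ}
    (he : ∀ g : G, ∑ x, e x * w (g • x) = 0) (x : R) : e (bar x) = e x := by
  classical
  by_contra hx
  let d : R → ℤ := fun x => e x - e (bar x)
  have hd : d ≠ 0 := by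
    intro h
    apply hx
    have := congrFun h x
    simp only [d, Pi.zero_apply] at this
    omega
  have hdbar : ∀ x, d (bar x) = -d x := by
    intro x
    simp only [d, hbar]
    ring
  -- `d` is orthogonal to all translates of `w`
  have hdw : ∀ g : G, ∑ x, d x * w (g • x) = 0 := by
    intro g
    have h1 : ∑ x, e (bar x) * w (g • x) = -∑ x, e x * w (g • x) := by
      rw [← Finset.sum_neg_distrib]
      refine Finset.sum_nbij' bar bar (by simp) (by simp) (fun x _ => hbar x)
        (fun x _ => hbar x) ?_
      intro x _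
      rw [← hbarG, hw]
      ring
    simp only [d, sub_mul, Finset.sum_sub_distrib, he, h1]
    ring
  obtain ⟨c, d', hc, hcd, hd'⟩ := exists_primitive 2 (by norm_num) d hd
  have hdbar' : ∀ x, d' (bar x) = -d' x := by
    intro x
    have h1 := hdbar x
    rw [hcd, hcd x] at h1
    have h2 : c * (d' (bar x) + d' x) = 0 := by linarith
    have h3 := (mul_eq_zero.1 h2).resolve_left hc
    omega
  have hdw' : ∀ g : G, ∑ x ∈ Finset.univ.filter (fun x => 0 < w (g • x)),
      d' x * w (g • x) = 0 := by
    intro g
    have h1 : ∑ x, d' x * w (g • x) = 0 := by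
      have h2 : c * ∑ x, d' x * w (g • x) = 0 := by
        rw [Finset.mul_sum, ← hdw g]
        exact Finset.sum_congr rfl fun x _ => by rw [hcd x]; ring
      exact (mul_eq_zero.1 h2).resolve_left hc
    have h3 := sum_eq_two_mul (bar := bar) hbar (h := fun x => d' x * w (g • x))
      (w := fun x => w (g • x)) (fun x => by
        show d' (bar x) * w (g • bar x) = d' x * w (g • x)
        rw [← hbarG, hw, hdbar']; ring) (fun x => by
        show w (g • bar x) = -w (g • x)
        rw [← hbarG, hw]) (fun x hx => by
        show d' x * w (g • x) = 0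
        have hx' : w (g • x) = 0 := hx
        rw [hx', mul_zero])
    rw [h1] at h3
    omega
  have hwpos : ∀ g : G, ∀ x, 0 < w (g • x) → w (g • x) = 1 := by
    intro g x h
    have := hw1 (g • x)
    rw [abs_le] at this
    omega
  have hAsum : ∀ g : G, ∑ x ∈ Finset.univ.filter (fun x => 0 < w (g • x)), d' x = 0 := by
    intro g
    refine Eq.trans ?_ (hdw' g)
    refine Finset.sum_congr rfl fun x hx => ?_
    simp only [Finset.mem_filter, Finset.mem_univ, true_and] at hx
    rw [hwpos g x hx, mul_one]
  -- half-sums of even functions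
  have hhalf : ∀ g : G, ∀ h : R → ℤ, (∀ x, h (bar x) = h x) →
      ∑ x, h x = 2 * (∑ x ∈ Finset.univ.filter (fun x => 0 < w (g • x)), h x + h (g⁻¹ • z)) := by
    intro g h hh
    have hne : g⁻¹ • z ≠ bar (g⁻¹ • z) := fun h => hbne _ h.symm
    let h' : R → ℤ := fun x => if w (g • x) = 0 then 0 else h x
    have h1 := sum_eq_two_mul (bar := bar) hbar (h := h')
      (w := fun x => w (g • x)) (fun x => by
        show (if w (g • bar x) = 0 then 0 else h (bar x)) = if w (g • x) = 0 then 0 else h x
        rw [← hbarG, hw, hh]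
        simp) (fun x => by
        show w (g • bar x) = -w (g • x)
        rw [← hbarG, hw]) (fun x hx => by
        show (if w (g • x) = 0 then 0 else h x) = 0
        rw [if_pos hx])
    have h2 : ∑ x ∈ Finset.univ.filter (fun x => 0 < w (g • x)), h' x =
        ∑ x ∈ Finset.univ.filter (fun x => 0 < w (g • x)), h x := by
      refine Finset.sum_congr rfl fun x hx => ?_
      simp only [Finset.mem_filter, Finset.mem_univ, true_and] at hx
      show (if w (g • x) = 0 then 0 else h x) = h x
      rw [if_neg hx.ne']
    have h3 : ∑ x, h x = ∑ x, h' x + ∑ x ∈ ({g⁻¹ • z, bar (g⁻¹ • z)} : Finset R), h x := by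
      have h4 : ∀ x, h x = h' x + if x ∈ ({g⁻¹ • z, bar (g⁻¹ • z)} : Finset R) then h x else 0 := by
        intro x
        have h5 : x ∈ ({g⁻¹ • z, bar (g⁻¹ • z)} : Finset R) ↔ w (g • x) = 0 := by
          rw [Finset.mem_insert, Finset.mem_singleton, hz, hbarG]
          constructor
          · rintro (h | h)
            · left; rw [h, smul_inv_smul]
            · right; rw [h, smul_inv_smul]
          · rintro (h | h)
            · left; rw [← h, inv_smul_smul]
            · right; rw [← h, inv_smul_smul]
        by_cases h6 : w (g • x) = 0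
        · rw [if_pos (h5.2 h6)]
          show h x = (if w (g • x) = 0 then 0 else h x) + h x
          rw [if_pos h6, zero_add]
        · rw [if_neg (fun h => h6 (h5.1 h))]
          show h x = (if w (g • x) = 0 then 0 else h x) + 0
          rw [if_neg h6, add_zero]
      rw [Finset.sum_congr rfl fun x _ => h4 x, Finset.sum_add_distrib, Finset.sum_ite_mem,
        Finset.univ_inter]
    rw [h3, h1, h2, Finset.sum_pair hne, hh]
    ring
  -- absolute values are congruent modulo `2`
  have habs : ∀ v : ℤ, ∃ t : ℤ, |v| = v + 2 * t := by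
    intro v
    rcases abs_cases v with ⟨h, -⟩ | ⟨h, -⟩
    · exact ⟨0, by rw [h]; ring⟩
    · exact ⟨-v, by rw [h]; ring⟩
  choose t ht using fun x => habs (d' x)
  have hT : ∀ g : G, ∑ x, |d' x| = 2 * (2 * (∑ x ∈ Finset.univ.filter
      (fun x => 0 < w (g • x)), t x) + |d' (g⁻¹ • z)|) := by
    intro g
    rw [hhalf g (fun x => |d' x|) (fun x => by rw [hdbar', abs_neg])]
    congr 1
    have h1 : ∑ x ∈ Finset.univ.filter (fun x => 0 < w (g • x)), |d' x| =
        2 * ∑ x ∈ Finset.univ.filter (fun x => 0 < w (g • x)), t x := by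
      have h2 : ∑ x ∈ Finset.univ.filter (fun x => 0 < w (g • x)), |d' x| =
          ∑ x ∈ Finset.univ.filter (fun x => 0 < w (g • x)), d' x +
          ∑ x ∈ Finset.univ.filter (fun x => 0 < w (g • x)), 2 * t x := by
        rw [← Finset.sum_add_distrib]
        exact Finset.sum_congr rfl fun x _ => ht x
      rw [h2, hAsum g, zero_add, Finset.mul_sum]
    rw [h1]
  -- all values of `d'` are congruent modulo two
  have hcong : ∀ x y : R, (2 : ℤ) ∣ |d' x| - |d' y| := by
    intro x y
    obtain ⟨g, hg⟩ := exists_smul_eq G z x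
    obtain ⟨g', hg'⟩ := exists_smul_eq G z y
    have h1 := hT g⁻¹
    have h2 := hT g'⁻¹
    rw [inv_inv, hg] at h1
    rw [inv_inv, hg'] at h2
    refine ⟨∑ x ∈ Finset.univ.filter (fun x => 0 < w (g'⁻¹ • x)), t x -
      ∑ x ∈ Finset.univ.filter (fun x => 0 < w (g⁻¹ • x)), t x, ?_⟩
    linarith
  -- the value is even
  have heven : (2 : ℤ) ∣ |d' z| := by
    have h1 := hhalf 1 (fun x => |d' x|) (fun x => by rw [hdbar', abs_neg])
    have h2 := hT 1
    simp only [one_smul, inv_one] at h1 h2
    have h3 : (2 : ℤ) ∣ ∑ x ∈ Finset.univ.filter (fun x => 0 < w x), |d' x| -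
        ∑ x ∈ Finset.univ.filter (fun x => 0 < w x), |d' z| := by
      rw [← Finset.sum_sub_distrib]
      exact Finset.dvd_sum fun x _ => hcong x z
    have h4 : ∑ x ∈ Finset.univ.filter (fun x => 0 < w x), |d' z| =
        (∑ x ∈ Finset.univ.filter (fun x => 0 < w x), w x) * |d' z| := by
      rw [Finset.sum_mul]
      refine Finset.sum_congr rfl fun x hx => ?_
      simp only [Finset.mem_filter, Finset.mem_univ, true_and] at hx
      have := hwpos 1 x (by rwa [one_smul])
      rw [one_smul] at this
      rw [this, one_mul]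
    obtain ⟨r, hr⟩ := hodd
    rw [h4, hr] at h3
    obtain ⟨s, hs⟩ := h3
    have h5 : ∑ x ∈ Finset.univ.filter (fun x => 0 < w x), |d' x| =
        2 * ∑ x ∈ Finset.univ.filter (fun x => 0 < w x), t x := by
      linarith
    refine ⟨∑ x ∈ Finset.univ.filter (fun x => 0 < w x), t x - s - r * |d' z|, ?_⟩
    rw [h5] at hs
    linarith
  apply hd'
  funext y
  rw [Pi.zero_apply, ZMod.intCast_zmod_eq_zero_iff_dvd]
  have h1 := hcong y z
  have h2 : (2 : ℤ) ∣ |d' y| := by
    have := dvd_add h1 heven
    rwa [sub_add_cancel] at this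
  exact (dvd_abs _ _).1 h2

end

end Pool.Agent.Work.MP_223b32_ag
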