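import Pool.Agent.Work.MP_223b32_ag.Arith

/-!
# Roots with the same slopes differ by a root of unity
-/

namespace Pool.Agent.Work.MP_223b32_ag

open Polynomial

section General

variable {E : Type*} [Field E] [Algebra ℚ E] [IsAlgClosed E]

/-- The coefficients of a monic polynomial lie in any ring containing the roots. -/
theorem coeff_mem_of_roots (T : Subring E) {μ : ℚ[X]} (hμ : μ.Monic)
    (h : ∀ r : E, aeval r μ = 0 → r ∈ T) (i : ℕ) : algebraMap ℚ E (μ.coeff i) ∈ T := by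
  have h1 : μ.map (algebraMap ℚ E) = ((μ.aroots E).map fun r => X - C r).prod :=
    (IsAlgClosed.splits _).eq_prod_roots_of_monic (hμ.map _)
  have h2 : μ.map (algebraMap ℚ E) ∈ liftsRing T.subtype := by
    rw [h1]
    refine multiset_prod_mem _ fun g hg => ?_
    obtain ⟨r, hr, rfl⟩ := Multiset.mem_map.1 hg
    have hr' : r ∈ T := h r (mem_aroots.1 hr).2
    refine sub_mem ?_ ?_
    · rw [← lifts_iff_liftsRing]
      exact X_mem_lifts _
    · rw [← lifts_iff_liftsRing]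
      exact C'_mem_lifts ⟨⟨r, hr'⟩, rfl⟩
  rw [← lifts_iff_liftsRing, lifts_iff_coeff_lifts] at h2
  obtain ⟨t, ht⟩ := h2 i
  rw [coeff_map] at ht
  rw [← ht]
  exact t.2

variable {L : Type*} [Field L] [Algebra ℚ L] [Normal ℚ L]

omit [IsAlgClosed E] in
theorem exists_conj (ι : L →ₐ[ℚ] E) (u : L) {r : E} (hr : aeval r (minpoly ℚ u) = 0) :
    ∃ σ : Gal(L/ℚ), r = ι (σ u) := by
  have hint : IsIntegral ℚ u := Normal.isIntegral ‹_› u
  have h1 : r ∈ (minpoly ℚ u).rootSet E := mem_rootSet.2 ⟨minpoly.ne_zero hint, hr⟩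
  rw [← (Normal.splits ‹_› u).image_rootSet ι] at h1
  obtain ⟨v, hv, rfl⟩ := h1
  rw [mem_rootSet] at hv
  have h2 : minpoly ℚ v = minpoly ℚ u :=
    (minpoly.eq_of_irreducible_of_monic (minpoly.irreducible hint) hv.2 (minpoly.monic hint)).symm
  obtain ⟨σ, hσ⟩ := (isConjRoot_iff_exists_algEquiv (K := ℚ) (L := L) (x := v) (y := u)).1 h2
  exact ⟨σ, congrArg ι hσ.symm⟩

end General

section Rings

variable {p : ℕ} [hp : Fact p.Prime]

/-- The closed unit ball. -/
def unitBall (p : ℕ) [Fact p.Prime] : Subring (PadicAlgCl p) where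
  carrier := {z | ‖z‖ ≤ 1}
  mul_mem' := fun {x y} hx hy => by
    show ‖x * y‖ ≤ 1
    rw [norm_mul]
    exact mul_le_one₀ hx (norm_nonneg _) hy
  one_mem' := by
    show ‖(1 : PadicAlgCl p)‖ ≤ 1
    rw [norm_one]
  add_mem' := fun {x y} hx hy => (IsUltrametricDist.norm_add_le_max x y).trans (max_le hx hy)
  zero_mem' := by
    show ‖(0 : PadicAlgCl p)‖ ≤ 1
    rw [norm_zero]
    exact zero_le_one
  neg_mem' := fun {x} hx => by
    show ‖-x‖ ≤ 1
    rw [norm_neg]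
    exact hx

/-- The elements integral away from `p`. -/
def awayRing (p : ℕ) : Subring ℂ where
  carrier := {z | ∃ k : ℕ, IsIntegral ℤ ((p : ℂ) ^ k * z)}
  mul_mem' := by
    rintro x y ⟨k, hk⟩ ⟨l, hl⟩
    refine ⟨k + l, ?_⟩
    have : (p : ℂ) ^ (k + l) * (x * y) = ((p : ℂ) ^ k * x) * ((p : ℂ) ^ l * y) := by ring
    rw [this]
    exact hk.mul hl
  one_mem' := ⟨0, by simpa using isIntegral_one⟩
  add_mem' := by
    rintro x y ⟨k, hk⟩ ⟨l, hl⟩
    refine ⟨k + l, ?_⟩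
    have hpi : ∀ j : ℕ, IsIntegral ℤ ((p : ℂ) ^ j) := fun j => by
      have h1 : IsIntegral ℤ ((algebraMap ℤ ℂ) (p : ℤ)) := isIntegral_algebraMap
      have h2 : (algebraMap ℤ ℂ) (p : ℤ) = (p : ℂ) := by simp
      rw [h2] at h1
      exact h1.pow j
    have : (p : ℂ) ^ (k + l) * (x + y) =
        (p : ℂ) ^ l * ((p : ℂ) ^ k * x) + (p : ℂ) ^ k * ((p : ℂ) ^ l * y) := by ring
    rw [this]
    exact ((hpi l).mul hk).add ((hpi k).mul hl)
  zero_mem' := ⟨0, by simpa using isIntegral_zero⟩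
  neg_mem' := by
    rintro x ⟨k, hk⟩
    exact ⟨k, by rw [mul_neg]; exact hk.neg⟩

theorem rat_int_of (c : ℚ) (h1 : algebraMap ℚ (PadicAlgCl p) c ∈ unitBall p)
    (h2 : algebraMap ℚ ℂ c ∈ awayRing p) : ∃ z : ℤ, (z : ℚ) = c := by
  have h3 : ‖(c : ℚ_[p])‖ ≤ 1 := by
    have h4 : algebraMap ℚ (PadicAlgCl p) c = algebraMap ℚ_[p] (PadicAlgCl p) ((c : ℚ_[p])) := by
      simp
    have h5 := PadicAlgCl.norm_extends p (c : ℚ_[p])
    have h6 : ‖algebraMap ℚ (PadicAlgCl p) c‖ ≤ 1 := h1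
    rw [h4] at h6
    rw [← h5]
    exact h6
  have hunit := PadicInt.isUnit_den c h3
  have hnd : ¬ p ∣ c.den := by
    intro h
    rw [PadicInt.isUnit_iff] at hunit
    have h7 : ‖((c.den : ℤ) : ℤ_[p])‖ < 1 := PadicInt.norm_int_lt_one_iff_dvd _ |>.2 (by
      exact_mod_cast h)
    rw [Int.cast_natCast, hunit] at h7
    exact lt_irrefl _ h7
  obtain ⟨k, hk⟩ := h2
  have h8 : IsIntegral ℤ (((p : ℚ)) ^ k * c) := by
    have h9 : (p : ℂ) ^ k * algebraMap ℚ ℂ c = algebraMap ℚ ℂ ((p : ℚ) ^ k * c) := by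
      simp
    rw [h9] at hk
    exact (isIntegral_algebraMap_iff (algebraMap ℚ ℂ).injective).1 hk
  obtain ⟨z, hz⟩ := IsIntegrallyClosed.isIntegral_iff.1 h8
  have h10 : (z : ℚ) = (p : ℚ) ^ k * c := by simpa using hz
  -- the denominator divides a power of `p`
  have h11 : (c.den : ℤ) ∣ (p : ℤ) ^ k := by
    have h12 : (p : ℤ) ^ k * c.num = z * c.den := by
      have h13 : (z : ℚ) * c.den = (p : ℚ) ^ k * c.num := by
        rw [h10, mul_assoc, Rat.mul_den_eq_num]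
      exact_mod_cast h13.symm
    have hcop : IsCoprime (c.den : ℤ) c.num := by
      have := c.reduced
      rw [Int.isCoprime_iff_gcd_eq_one]
      rw [Int.gcd_comm]
      exact this
    exact hcop.dvd_of_dvd_mul_right ⟨z, by rw [h12]; ring⟩
  have h14 : c.den = 1 := by
    have h15 : c.den ∣ p ^ k := by exact_mod_cast h11
    obtain ⟨j, -, hj⟩ := (Nat.dvd_prime_pow hp.out).1 h15
    rcases Nat.eq_zero_or_pos j with h | h
    · rw [hj, h, pow_zero]
    · exact absurd (hj ▸ dvd_pow_self p h.ne') hnd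
  exact ⟨c.num, by
    have := Rat.num_div_den c
    rw [h14] at this
    simpa using this⟩

end Rings

section Kronecker

variable {p : ℕ} [hp : Fact p.Prime] {a : ℕ} {f : ℚ[X]}
  {L : Type*} [Field L] [Algebra ℚ L] [IsSplittingField ℚ L f]

theorem isIntegral_div (toC : L →ₐ[ℚ] ℂ) (toP : L →ₐ[ℚ] PadicAlgCl p) (hf : Irreducible f)
    (hweil : IsWeil (p ^ a) f) (hint : ∀ z : ℂ, aeval z f = 0 → IsIntegral ℤ z)
    {x y : L} (hx : x ∈ f.rootSet L) (hy : y ∈ f.rootSet L)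
    (hxy : ∀ σ : Gal(L/ℚ), ‖toP (σ x)‖ = ‖toP (σ y)‖) : IsIntegral ℤ (x / y) := by
  have : Normal ℚ L := Normal.of_isSplittingField f
  have hintu : IsIntegral ℚ (x / y) := Normal.isIntegral ‹_› _
  have hroot : ∀ (σ : Gal(L/ℚ)) {v : L}, v ∈ f.rootSet L → σ v ∈ f.rootSet L := by
    intro σ v hv
    exact (σ • (⟨v, hv⟩ : f.rootSet L)).2
  have hcoeff : ∀ i, ∃ z : ℤ, (z : ℚ) = (minpoly ℚ (x / y)).coeff i := by
    intro i
    apply rat_int_of (p := p)
    · refine coeff_mem_of_roots (unitBall p) (minpoly.monic hintu) (fun r hr => ?_) i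
      obtain ⟨σ, rfl⟩ := exists_conj toP _ hr
      show ‖toP (σ (x / y))‖ ≤ 1
      rw [map_div₀, map_div₀, norm_div, hxy σ, div_self]
      rw [norm_ne_zero_iff]
      exact (map_ne_zero toP).2 (root_ne_zero toC hweil (hroot σ hy))
    · refine coeff_mem_of_roots (awayRing p) (minpoly.monic hintu) (fun r hr => ?_) i
      obtain ⟨σ, rfl⟩ := exists_conj toC _ hr
      refine ⟨a, ?_⟩
      have hy0 : y ≠ 0 := root_ne_zero toC hweil hy
      have h1 : (p : ℂ) ^ a * toC (σ (x / y)) =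
          toC (σ x) * toC (σ (((p ^ a : ℕ) : L) / y)) := by
        rw [map_div₀, map_div₀, map_div₀ σ, map_div₀ toC, map_natCast σ, map_natCast toC]
        push_cast
        ring
      rw [h1]
      exact (hint _ (aeval_hom toC (hroot σ hx))).mul
        (hint _ (aeval_hom toC (hroot σ (exists_bar toC hweil hf.ne_zero hy))))
  -- the minimal polynomial has integral coefficients
  have hlift : minpoly ℚ (x / y) ∈ lifts (Int.castRingHom ℚ) := by
    rw [lifts_iff_coeff_lifts]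
    intro i
    obtain ⟨z, hz⟩ := hcoeff i
    exact ⟨z, hz⟩
  obtain ⟨g, hg, -, hgm⟩ := lifts_and_natDegree_eq_and_monic hlift (minpoly.monic hintu)
  refine ⟨g, hgm, ?_⟩
  have h1 := minpoly.aeval ℚ (x / y)
  have h2 : (algebraMap ℚ L).comp (Int.castRingHom ℚ) = algebraMap ℤ L := RingHom.ext_int _ _
  rw [← hg, aeval_def, eval₂_map, h2] at h1
  exact h1

/-- **Kronecker.** -/
theorem exists_pow_eq (toC : L →ₐ[ℚ] ℂ) (toP : L →ₐ[ℚ] PadicAlgCl p) (hf : Irreducible f)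
    (hweil : IsWeil (p ^ a) f) (hint : ∀ z : ℂ, aeval z f = 0 → IsIntegral ℤ z)
    {x y : L} (hx : x ∈ f.rootSet L) (hy : y ∈ f.rootSet L)
    (hxy : ∀ σ : Gal(L/ℚ), ‖toP (σ x)‖ = ‖toP (σ y)‖) : ∃ N : ℕ, 0 < N ∧ x ^ N = y ^ N := by
  have h1 := isIntegral_div toC toP hf hweil hint hx hy hxy
  have hfin : FiniteDimensional ℚ L := IsSplittingField.finiteDimensional L f
  have hchar : CharZero L := charZero_of_injective_algebraMap (algebraMap ℚ L).injective
  have hL : NumberField L :=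
    { to_charZero := hchar
      to_finiteDimensional := by
        have h : (DivisionRing.toRatAlgebra : Algebra ℚ L) = ‹Algebra ℚ L› :=
          Subsingleton.elim _ _
        rw [h]
        exact hfin }
  have hy0 : y ≠ 0 := root_ne_zero toC hweil hy
  obtain ⟨N, hN, h2⟩ := NumberField.Embeddings.pow_eq_one_of_norm_eq_one L ℂ h1 (fun φ => by
    let φ' : L →ₐ[ℚ] ℂ := φ.toRatAlgHom
    have h3 : ‖φ x‖ ^ 2 = (p ^ a : ℕ) := hweil _ (aeval_hom φ' hx)
    have h4 : ‖φ y‖ ^ 2 = (p ^ a : ℕ) := hweil _ (aeval_hom φ' hy)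
    have h5 : ‖φ x‖ = ‖φ y‖ := by
      have := h3.trans h4.symm
      exact (pow_left_inj₀ (norm_nonneg _) (norm_nonneg _) two_ne_zero).1 this
    rw [map_div₀, norm_div, h5, div_self]
    rw [norm_ne_zero_iff]
    exact (map_ne_zero φ).2 hy0)
  refine ⟨N, hN, ?_⟩
  rw [div_pow, div_eq_one_iff_eq (pow_ne_zero _ hy0)] at h2
  exact h2

end Kronecker

end Pool.Agent.Work.MP_223b32_ag
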