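import Pool.Agent.Work.MP_223b32_ag.GroupConst
import Pool.Agent.Work.MP_223b32_ag.GroupAlmost
import Pool.Agent.Work.MP_223b32_ag.Kron

/-!
# Multiplicative relations between the Frobenius eigenvalues of K3 surfaces of odd height
-/

namespace Pool.Agent.Work.MP_223b32_ag

open Polynomial MulAction

section

variable {p : ℕ} [hp : Fact p.Prime] {a : ℕ} {f : ℚ[X]} {c : ℝ} {m : PadicAlgCl p → ℤ}

theorem no_rational_root {d : ℕ} (hf : Irreducible f) (hdeg : f.natDegree = 2 * d)
    {E : Type*} [Field E] [Algebra ℚ E] {x : E} (hx : aeval x f = 0) (r : ℚ)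
    (hr : algebraMap ℚ E r = x) : False := by
  have h1 : f.IsRoot r := by
    rw [← hr, aeval_algebraMap_apply] at hx
    have h2 : aeval r f = 0 := by
      apply (algebraMap ℚ E).injective
      rw [hx, map_zero]
    rwa [aeval_def, Algebra.algebraMap_self, eval₂_id] at h2
  have h2 := degree_eq_one_of_irreducible_of_root hf h1
  have h3 : f.natDegree = 1 := natDegree_eq_of_degree_eq_some (n := 1) h2
  omega

/-- The relations between the roots are the obvious ones. -/
theorem key_k3 {d : ℕ} (ha : 0 < a) (hf : Irreducible f)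
    (hint : ∀ z : ℂ, aeval z f = 0 → IsIntegral ℤ z)
    (hweil : IsWeil (p ^ (2 * a)) f) (hdeg : f.natDegree = 2 * d) (hc : 0 < c)
    (hm : ∀ x, aeval x f = 0 → slope p (2 * a) x = (1 + c * m x) / 2)
    (hm1 : ∀ x, aeval x f = 0 → |m x| ≤ 1)
    (hodd : Odd ((f.aroots (PadicAlgCl p)).map fun x => max (m x) 0).sum)
    (hnd : ∀ x y : ℂ, aeval x f = 0 → aeval y f = 0 → ∀ N : ℕ, 0 < N → x ^ N = y ^ N → x = y)
    (hcase : (∃ k, d = 2 ^ k) ∨ d.Prime ∨
      ((f.aroots (PadicAlgCl p)).map fun x => max (m x) 0).sum + 1 = d)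
    {s : Multiset ℂ} (hs : ∀ z ∈ s, aeval z f = 0)
    (hprod : s.prod = ((p ^ a : ℕ) : ℂ) ^ s.card)
    {z : ℂ} (hz : aeval z f = 0) : s.count (((p ^ a : ℕ) : ℂ) ^ 2 / z) = s.count z := by
  classical
  -- double the multiset
  have hss : ∀ z ∈ s + s, aeval z f = 0 := by
    intro z hz
    rcases Multiset.mem_add.1 hz with h | h <;> exact hs z h
  have hcard : (s + s).card = 2 * s.card := by rw [Multiset.card_add]; ring
  have hprod2 : (s + s).prod ^ 1 = ((p ^ (2 * a) : ℕ) : ℂ) ^ (1 * s.card) := by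
    rw [Multiset.prod_add, hprod, pow_one, one_mul]
    push_cast
    ring
  suffices h : (s + s).count (((p ^ (2 * a) : ℕ) : ℂ) / z) = (s + s).count z by
    rw [Multiset.count_add, Multiset.count_add] at h
    have h2 : ((p ^ (2 * a) : ℕ) : ℂ) = ((p ^ a : ℕ) : ℂ) ^ 2 := by push_cast; ring
    rw [h2] at h
    omega
  have ha2 : 0 < 2 * a := by omega
  by_cases hpow : ∃ k, d = 2 ^ k
  · obtain ⟨k, hk⟩ := hpow
    exact count_even (k := k + 1) ha2 hf hweil (by rw [hdeg, hk]; ring) hc hm hodd hss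
      one_pos hcard hprod2 hz
  replace hcase := hcase.resolve_left hpow
  obtain ⟨L, _, _, hL⟩ : ∃ (L : Type) (_ : Field L) (_ : Algebra ℚ L), IsSplittingField ℚ L f :=
    ⟨f.SplittingField, _, _, IsSplittingField.splittingField f⟩
  have hgal : IsGalois ℚ L := IsGalois.of_separable_splitting_field hf.separable
  have hfin : FiniteDimensional ℚ L := IsSplittingField.finiteDimensional L f
  have hpre := isPretransitive_of_irreducible L hf
  let toC : L →ₐ[ℚ] ℂ := IsAlgClosed.lift
  let toP : L →ₐ[ℚ] PadicAlgCl p := IsAlgClosed.lift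
  have hR : Nat.card (f.rootSet L) = 2 * d := by rw [card_roots L hf, hdeg]
  have hbne : ∀ x, bar toC hweil hf.ne_zero x ≠ x := by
    intro x hx
    have h0 : x.1 ≠ 0 := root_ne_zero toC hweil x.2
    have h1 : ((p ^ (2 * a) : ℕ) : L) / x.1 = x.1 := congrArg Subtype.val hx
    rw [div_eq_iff h0] at h1
    have h2 : (x.1 - ((p ^ a : ℕ) : L)) * (x.1 + ((p ^ a : ℕ) : L)) = 0 := by
      have h3 : ((p ^ (2 * a) : ℕ) : L) = ((p ^ a : ℕ) : L) * ((p ^ a : ℕ) : L) := by
        push_cast; ring
      rw [h3] at h1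
      linear_combination -h1
    have hroot := (mem_rootSet.1 x.2).2
    rcases mul_eq_zero.1 h2 with h | h
    · refine no_rational_root hf hdeg hroot ((p ^ a : ℕ) : ℚ) ?_
      rw [map_natCast]
      exact (sub_eq_zero.1 h).symm
    · refine no_rational_root hf hdeg hroot (-((p ^ a : ℕ) : ℚ)) ?_
      rw [map_neg, map_natCast]
      exact (eq_neg_of_add_eq_zero_left h).symm
  have hw1 : ∀ x : f.rootSet L, |m (toP x.1)| ≤ 1 := fun x => hm1 _ (aeval_hom toP x.2)
  refine count_of_key toC toP ha2 hf hweil hc hm (fun e he x => ?_) hss one_pos hcard hprod2 hz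
  rcases hcase with hd | hd
  · -- odd prime
    have : Fact d.Prime := ⟨hd⟩
    by_contra hx
    have hd2 : d ≠ 2 := fun h => hpow ⟨1, by rw [h]; norm_num⟩
    obtain ⟨O, hO, hconst⟩ := const_of_orthogonal (G := Gal(L/ℚ)) (ℓ := d) hd2 hR
      (bar_bar toC hweil hf.ne_zero) (bar_smul toC hweil hf.ne_zero)
      (w := fun x => m (toP x.1)) (weight_bar toC toP ha2 hweil hf.ne_zero hc hm) hw1 (by
        rw [sum_pos_weights toP hf]; exact hodd) he hx
    have h1 : 1 < O.card := by rw [hO]; exact hd.one_lt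
    obtain ⟨u, hu, v, hv, huv⟩ := Finset.one_lt_card.1 h1
    have hnorm : ∀ σ : Gal(L/ℚ), ‖toP (σ u.1)‖ = ‖toP (σ v.1)‖ := by
      intro σ
      have h2 := hconst σ u hu v hv
      have h3 : slope p (2 * a) (toP (σ u.1)) = slope p (2 * a) (toP (σ v.1)) := by
        have h4 := hm _ (aeval_hom toP (σ • u).2)
        have h5 := hm _ (aeval_hom toP (σ • v).2)
        have h6 : m (toP (σ • u).1) = m (toP (σ • v).1) := h2
        rw [h6] at h4
        exact h4.trans h5.symm
      have hpos : ∀ y : f.rootSet L, 0 < ‖toP (σ y.1)‖ := fun y =>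
        norm_pos_iff.2 ((map_ne_zero toP).2 (root_ne_zero toC hweil (σ • y).2))
      have hb : 1 < (p : ℝ) ^ (2 * a) := by
        have hp1 : (1 : ℝ) < p := by exact_mod_cast hp.out.one_lt
        exact one_lt_pow₀ hp1 ha2.ne'
      unfold slope at h3
      have h7 := neg_injective h3
      exact Real.logb_injOn_pos hb (Set.mem_Ioi.2 (hpos u)) (Set.mem_Ioi.2 (hpos v)) h7
    obtain ⟨N, hN, hNe⟩ := exists_pow_eq toC toP hf hweil hint u.2 v.2 hnorm
    apply huv
    apply Subtype.ext
    apply toC.toRingHom.injective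
    refine hnd _ _ (aeval_hom toC u.2) (aeval_hom toC v.2) N hN ?_
    show toC u.1 ^ N = toC v.1 ^ N
    rw [← map_pow, ← map_pow, hNe]
  · -- exactly one pair of zeros
    let w : f.rootSet L → ℤ := fun x => m (toP x.1)
    have hw : ∀ x, w (bar toC hweil hf.ne_zero x) = -w x :=
      weight_bar toC toP ha2 hweil hf.ne_zero hc hm
    have hsum : ∑ x ∈ Finset.univ.filter (fun x => 0 < w x), w x + 1 = d := by
      have h1 := sum_pos_weights (m := m) toP hf
      have h2 : ∑ x ∈ Finset.univ.filter (fun x => 0 < w x), w x =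
          ((f.aroots (PadicAlgCl p)).map fun x => max (m x) 0).sum := h1
      rw [h2]
      exact hd
    have habs : ∑ x, |w x| = 2 * ((d : ℤ) - 1) := by
      have h1 := sum_eq_two_mul (bar := bar toC hweil hf.ne_zero)
        (bar_bar toC hweil hf.ne_zero) (h := fun x => |w x|) (w := w)
        (fun x => by
          show |w (bar toC hweil hf.ne_zero x)| = |w x|
          rw [hw, abs_neg]) hw (fun x hx => by
          show |w x| = 0
          rw [hx, abs_zero])
      have h4 : ∑ x ∈ Finset.univ.filter (fun x => 0 < w x), |w x| =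
          ∑ x ∈ Finset.univ.filter (fun x => 0 < w x), w x :=
        Finset.sum_congr rfl fun x hx => by
          simp only [Finset.mem_filter, Finset.mem_univ, true_and] at hx
          exact abs_of_pos hx
      rw [h1, h4]
      linarith
    have hzeros : (Finset.univ.filter (fun x => w x = 0)).card = 2 := by
      have h1 : ∑ x, |w x| + ((Finset.univ.filter (fun x => w x = 0)).card : ℤ) = 2 * d := by
        have h2 : ((Finset.univ.filter (fun x => w x = 0)).card : ℤ) =
            ∑ x, if w x = 0 then (1 : ℤ) else 0 := by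
          rw [Finset.sum_ite, Finset.sum_const_zero, add_zero, Finset.sum_const, nsmul_eq_mul,
            mul_one]
        rw [h2, ← Finset.sum_add_distrib]
        have h3 : ∀ x : f.rootSet L, |w x| + (if w x = 0 then (1 : ℤ) else 0) = 1 := by
          intro x
          have h4 := hw1 x
          have h5 : |w x| ≤ 1 := h4
          split_ifs with h
          · rw [h, abs_zero, zero_add]
          · have h6 := abs_pos.2 h
            omega
        rw [Finset.sum_congr rfl fun x _ => h3 x, Finset.sum_const, Finset.card_univ,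
          ← Nat.card_eq_fintype_card, hR, nsmul_eq_mul, mul_one]
        push_cast
        ring
      rw [habs] at h1
      have : ((Finset.univ.filter (fun x => w x = 0)).card : ℤ) = 2 := by linarith
      exact_mod_cast this
    obtain ⟨z₀, hz₀⟩ : ∃ z₀, z₀ ∈ Finset.univ.filter (fun x => w x = 0) :=
      Finset.card_pos.1 (by rw [hzeros]; norm_num)
    have hz₀w : w z₀ = 0 := by simpa using hz₀
    have hzset : Finset.univ.filter (fun x => w x = 0) =
        {z₀, bar toC hweil hf.ne_zero z₀} := by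
      symm
      apply Finset.eq_of_subset_of_card_le
      · intro x hx
        rw [Finset.mem_insert, Finset.mem_singleton] at hx
        simp only [Finset.mem_filter, Finset.mem_univ, true_and]
        rcases hx with rfl | rfl
        · exact hz₀w
        · rw [hw, hz₀w, neg_zero]
      · rw [hzeros, Finset.card_pair (hbne z₀).symm]
    refine even_of_orthogonal_almost (G := Gal(L/ℚ)) (w := w) (z := z₀)
      (bar_bar toC hweil hf.ne_zero) (bar_smul toC hweil hf.ne_zero) hbne hw hw1 (fun x => ?_) ?_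
      he x
    · have h1 : x ∈ Finset.univ.filter (fun x => w x = 0) ↔ w x = 0 := by simp
      rw [← h1, hzset, Finset.mem_insert, Finset.mem_singleton]
    · have h1 := sum_pos_weights (m := m) toP hf
      have h2 : ∑ x ∈ Finset.univ.filter (fun x => 0 < w x), w x =
          ((f.aroots (PadicAlgCl p)).map fun x => max (m x) 0).sum := h1
      rw [h2]
      exact hodd

/-- Two of the factors of a product of roots equal to a power of `q` have product `q ^ 2`. -/
theorem pair_k3 {d : ℕ} (ha : 0 < a) (hf : Irreducible f)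
    (hint : ∀ z : ℂ, aeval z f = 0 → IsIntegral ℤ z)
    (hweil : IsWeil (p ^ (2 * a)) f) (hdeg : f.natDegree = 2 * d) (hc : 0 < c)
    (hm : ∀ x, aeval x f = 0 → slope p (2 * a) x = (1 + c * m x) / 2)
    (hm1 : ∀ x, aeval x f = 0 → |m x| ≤ 1)
    (hodd : Odd ((f.aroots (PadicAlgCl p)).map fun x => max (m x) 0).sum)
    (hnd : ∀ x y : ℂ, aeval x f = 0 → aeval y f = 0 → ∀ N : ℕ, 0 < N → x ^ N = y ^ N → x = y)
    (hcase : (∃ k, d = 2 ^ k) ∨ d.Prime ∨
      ((f.aroots (PadicAlgCl p)).map fun x => max (m x) 0).sum + 1 = d)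
    {s : Multiset ℂ} (hs : ∀ z ∈ s, aeval z f = 0) (hne : s ≠ 0)
    (hprod : s.prod = ((p ^ a : ℕ) : ℂ) ^ s.card) :
    ∃ x y t, s = x ::ₘ y ::ₘ t ∧ x * y = ((p ^ a : ℕ) : ℂ) ^ 2 := by
  classical
  obtain ⟨z, hz⟩ := Multiset.exists_mem_of_ne_zero hne
  have hzf := hs z hz
  have h1 := key_k3 ha hf hint hweil hdeg hc hm hm1 hodd hnd hcase hs hprod hzf
  have h2 : ((p ^ a : ℕ) : ℂ) ^ 2 / z ∈ s := by
    rw [← Multiset.count_pos, h1, Multiset.count_pos]
    exact hz
  have hq0 : ((p ^ a : ℕ) : ℂ) ≠ 0 := by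
    have : p ^ a ≠ 0 := (pow_pos hp.out.pos a).ne'
    exact_mod_cast this
  have hz0 : z ≠ 0 := by
    rintro rfl
    have h3 := hweil 0 hzf
    rw [norm_zero, zero_pow two_ne_zero] at h3
    have h4 : ((p ^ (2 * a) : ℕ) : ℝ) ≠ 0 := by
      have : p ^ (2 * a) ≠ 0 := (pow_pos hp.out.pos _).ne'
      exact_mod_cast this
    exact h4 h3.symm
  have h3 : ((p ^ a : ℕ) : ℂ) ^ 2 / z ≠ z := by
    intro h
    rw [div_eq_iff hz0] at h
    have h4 : (z - ((p ^ a : ℕ) : ℂ)) * (z + ((p ^ a : ℕ) : ℂ)) = 0 := by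
      linear_combination -h
    rcases mul_eq_zero.1 h4 with h5 | h5
    · refine no_rational_root hf hdeg hzf ((p ^ a : ℕ) : ℚ) ?_
      rw [map_natCast]
      exact (sub_eq_zero.1 h5).symm
    · refine no_rational_root hf hdeg hzf (-((p ^ a : ℕ) : ℚ)) ?_
      rw [map_neg, map_natCast]
      exact (eq_neg_of_add_eq_zero_left h5).symm
  obtain ⟨t, rfl⟩ := Multiset.exists_cons_of_mem hz
  rw [Multiset.mem_cons] at h2
  obtain ⟨t', rfl⟩ := Multiset.exists_cons_of_mem (h2.resolve_left h3)
  exact ⟨z, _, t', rfl, mul_div_cancel₀ _ hz0⟩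

end

end Pool.Agent.Work.MP_223b32_ag
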