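import Mathlib
import Pool.Agent.Work.MP_223b32_ag.Defs

/-!
# Linear algebra: Tate classes in an exterior algebra and the order of the pole
-/

namespace Pool.Agent.Work.MP_223b32_ag

open ExteriorAlgebra Module Filter Topology

section Perm

variable {V : Type*} [AddCommGroup V] [Module ℂ V]

theorem prod_perm {l l' : List V} (h : l.Perm l') :
    (l.map (ι ℂ)).prod = (l'.map (ι ℂ)).prod ∨
      (l.map (ι ℂ)).prod = -(l'.map (ι ℂ)).prod := by
  induction h with
  | nil => left; rfl
  | cons x _ ih =>
    rcases ih with ih | ih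
    · left; simp [ih]
    · right; simp [ih]
  | swap x y l =>
    right
    have h := ι_add_mul_swap (R := ℂ) x y
    have h' : ι ℂ y * ι ℂ x = - (ι ℂ x * ι ℂ y) := by
      rw [eq_neg_iff_add_eq_zero, add_comm]; exact h
    simp only [List.map_cons, List.prod_cons, ← mul_assoc, h', neg_mul]
  | trans _ _ ih1 ih2 =>
    rcases ih1 with ih1 | ih1 <;> rcases ih2 with ih2 | ih2
    · left; rw [ih1, ih2]
    · right; rw [ih1, ih2]
    · right; rw [ih1, ih2]
    · left; rw [ih1, ih2, neg_neg]

theorem mem_tateClasses_iff {G : End ℂ V} {Q : ℂ} {i : ℕ} {x : ExteriorAlgebra ℂ V} :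
    x ∈ tateClasses G Q i ↔
      x ∈ ⋀[ℂ]^(2 * i) V ∧ ExteriorAlgebra.map G x = Q ^ i • x := by
  rw [tateClasses, Submodule.mem_inf, LinearMap.mem_ker]
  simp only [LinearMap.sub_apply, LinearMap.smul_apply, LinearMap.id_apply,
      AlgHom.toLinearMap_apply, sub_eq_zero]

theorem mem_tateClasses_one {G : End ℂ V} {Q : ℂ} {v w : V} {x y : ℂ} (hv : G v = x • v)
    (hw : G w = y • w) (hxy : x * y = Q) : ι ℂ v * ι ℂ w ∈ tateClasses G Q 1 := by
  rw [mem_tateClasses_iff]
  refine ⟨?_, ?_⟩
  · show ι ℂ v * ι ℂ w ∈ (LinearMap.range (ι ℂ : V →ₗ[ℂ] _)) ^ (2 * 1)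
    rw [mul_one, pow_two]
    exact Submodule.mul_mem_mul (LinearMap.mem_range_self _ _) (LinearMap.mem_range_self _ _)
  · simp only [map_mul, map_apply_ι, hv, hw, pow_one, map_smul,
      smul_mul_assoc, mul_smul_comm, smul_smul, ← hxy]
    rw [mul_comm x y]

theorem pow_le_tateClasses (G : End ℂ V) (Q : ℂ) (j : ℕ) :
    (tateClasses G Q 1) ^ j ≤ tateClasses G Q j := by
  induction j with
  | zero =>
    intro x hx
    rw [pow_zero, Submodule.mem_one] at hx
    obtain ⟨c, rfl⟩ := hx
    rw [mem_tateClasses_iff]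
    refine ⟨?_, ?_⟩
    · show _ ∈ (LinearMap.range (ι ℂ : V →ₗ[ℂ] _)) ^ (2 * 0)
      rw [mul_zero, pow_zero, Submodule.mem_one]
      exact ⟨c, rfl⟩
    · rw [pow_zero, one_smul, AlgHom.commutes]
  | succ j ih =>
    rw [pow_succ, Submodule.mul_le]
    intro x hx y hy
    have hx' := mem_tateClasses_iff.1 (ih hx)
    have hy' := mem_tateClasses_iff.1 hy
    rw [mem_tateClasses_iff]
    refine ⟨?_, ?_⟩
    · have h1 : x ∈ (LinearMap.range (ι ℂ : V →ₗ[ℂ] _)) ^ (2 * j) := hx'.1
      have h2 : y ∈ (LinearMap.range (ι ℂ : V →ₗ[ℂ] _)) ^ (2 * 1) := hy'.1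
      show x * y ∈ (LinearMap.range (ι ℂ : V →ₗ[ℂ] _)) ^ (2 * (j + 1))
      rw [mul_add, pow_add]
      exact Submodule.mul_mem_mul h1 h2
    · rw [map_mul, hx'.2, hy'.2, smul_mul_assoc, mul_smul_comm, smul_smul, pow_one, pow_succ]

end Perm

section Basis

variable {V : Type*} [AddCommGroup V] [Module ℂ V] {I : Type*}
  {b : Basis I ℂ V} {G : End ℂ V} {μ : I → ℂ} {Q : ℂ}

theorem prod_mem_pow (hG : ∀ i, G (b i) = μ i • b i)
    (hpair : ∀ (j : ℕ) (l : List I), l.length = 2 * (j + 1) → (l.map μ).prod = Q ^ (j + 1) →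
      ∃ x y t, l.Perm (x :: y :: t) ∧ μ x * μ y = Q) (hQ : Q ≠ 0) :
    ∀ (j : ℕ) (l : List I), l.length = 2 * j → (l.map μ).prod = Q ^ j →
      (l.map fun i => ι ℂ (b i)).prod ∈ (tateClasses G Q 1) ^ j := by
  intro j
  induction j with
  | zero =>
    intro l hl _
    rw [mul_zero, List.length_eq_zero_iff] at hl
    subst hl
    simp only [List.map_nil, List.prod_nil, pow_zero]
    exact Submodule.mem_one.2 ⟨1, map_one _⟩
  | succ j ih =>
    intro l hl hprod
    obtain ⟨x, y, t, hperm, hxy⟩ := hpair j l hl hprod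
    have h1 : (t.map μ).prod = Q ^ j := by
      have h2 : (l.map μ).prod = ((x :: y :: t).map μ).prod := (hperm.map μ).prod_eq
      rw [hprod, List.map_cons, List.map_cons, List.prod_cons, List.prod_cons, ← mul_assoc,
        hxy, pow_succ'] at h2
      exact (mul_left_cancel₀ hQ h2).symm
    have h3 : t.length = 2 * j := by
      have := hperm.length_eq
      simp only [List.length_cons] at this
      omega
    have h4 := ih t h3 h1
    have h5 : ((x :: y :: t).map fun i => ι ℂ (b i)).prod ∈ (tateClasses G Q 1) ^ (j + 1) := by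
      rw [pow_succ']
      simp only [List.map_cons, List.prod_cons, ← mul_assoc]
      exact Submodule.mul_mem_mul (mem_tateClasses_one (hG x) (hG y) hxy) h4
    have h6 := prod_perm (hperm.map b)
    simp only [List.map_map] at h6
    have e : (ι ℂ ∘ b : I → ExteriorAlgebra ℂ V) = fun i => ι ℂ (b i) := rfl
    rw [e] at h6
    rcases h6 with h6 | h6
    · rw [h6]; exact h5
    · rw [h6]; exact Submodule.neg_mem _ h5

variable [LinearOrder I]

/-- The eigenvalue of `⋀^d G` on the basis vector indexed by `s`. -/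
noncomputable def eig (μ : I → ℂ) {d : ℕ} (s : Set.powersetCard I d) : ℂ :=
  ((List.ofFn (Set.powersetCard.ofFinEmbEquiv.symm s)).map μ).prod

theorem map_family (hG : ∀ i, G (b i) = μ i • b i) {d : ℕ} (s : Set.powersetCard I d) :
    ExteriorAlgebra.map G (ιMulti_family ℂ d b s) = eig μ s • ιMulti_family ℂ d b s := by
  have key : ∀ l : List I, ExteriorAlgebra.map G ((l.map fun i => ι ℂ (b i)).prod) =
      (l.map μ).prod • (l.map fun i => ι ℂ (b i)).prod := by
    intro l
    induction l with
    | nil => simp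
    | cons x l ih =>
      simp only [List.map_cons, List.prod_cons, map_mul, ih, map_apply_ι, hG, map_smul,
        smul_mul_assoc, mul_smul_comm, smul_smul]
      rw [mul_comm]
  have h := key (List.ofFn (Set.powersetCard.ofFinEmbEquiv.symm s))
  have e : (List.map (fun i => ι ℂ (b i))
      (List.ofFn (Set.powersetCard.ofFinEmbEquiv.symm s))).prod = ιMulti_family ℂ d b s := by
    rw [List.map_ofFn, ιMulti_family, ιMulti_apply]
    rfl
  rw [e] at h
  exact h

theorem map_basis (hG : ∀ i, G (b i) = μ i • b i) {d : ℕ} (s : Set.powersetCard I d) :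
    exteriorPower.map d G (b.exteriorPower d s) = eig μ s • b.exteriorPower d s := by
  rw [exteriorPower.basis_apply, exteriorPower.map_apply_ιMulti_family]
  apply Subtype.ext
  rw [exteriorPower.ιMulti_family_apply_coe, SetLike.val_smul,
    exteriorPower.ιMulti_family_apply_coe]
  have h := map_family hG s
  rw [ιMulti_family, map_apply_ιMulti] at h
  exact h

theorem coe_map_eq (d : ℕ) (x : ⋀[ℂ]^d V) :
    ((exteriorPower.map d G x : ⋀[ℂ]^d V) : ExteriorAlgebra ℂ V) =
      ExteriorAlgebra.map G (x : ExteriorAlgebra ℂ V) := by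
  have h : (Submodule.subtype _).comp (exteriorPower.map d G) =
      (ExteriorAlgebra.map G).toLinearMap.comp (Submodule.subtype (⋀[ℂ]^d V)) := by
    apply exteriorPower.linearMap_ext
    ext v
    simp only [LinearMap.compAlternatingMap_apply, LinearMap.comp_apply,
      exteriorPower.map_apply_ιMulti, Submodule.subtype_apply, exteriorPower.ιMulti_apply_coe,
      AlgHom.toLinearMap_apply, map_apply_ιMulti]
  exact LinearMap.congr_fun h x

/-- `tateClasses` is spanned by the basis vectors with the right eigenvalue. -/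
theorem tateClasses_eq_span (hG : ∀ i, G (b i) = μ i • b i) (j : ℕ) :
    tateClasses G Q j = Submodule.span ℂ (Set.range
      fun s : {s : Set.powersetCard I (2 * j) // eig μ s = Q ^ j} =>
        ιMulti_family ℂ (2 * j) b s.1) := by
  apply le_antisymm
  · intro x hx
    rw [mem_tateClasses_iff] at hx
    obtain ⟨hx1, hx2⟩ := hx
    set y : ⋀[ℂ]^(2 * j) V := ⟨x, hx1⟩ with hy
    set B := b.exteriorPower (2 * j) with hB
    have hTy : exteriorPower.map (2 * j) G y = Q ^ j • y := by
      apply Subtype.ext
      rw [coe_map_eq, SetLike.val_smul]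
      exact hx2
    have hrepr : ∀ s, B.repr y s ≠ 0 → eig μ s = Q ^ j := by
      intro s hs
      have h1 : B.repr (exteriorPower.map (2 * j) G y) s = eig μ s * B.repr y s := by
        conv_lhs => rw [← B.linearCombination_repr y, Finsupp.linearCombination_apply,
          Finsupp.sum, map_sum]
        simp only [map_smul, hB, map_basis hG]
        rw [← hB]
        simp only [map_sum, map_smul, Basis.repr_self, Finsupp.coe_finsetSum, Finset.sum_apply,
          Finsupp.smul_apply, smul_eq_mul, Finsupp.single_apply]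
        by_cases hmem : s ∈ (B.repr y).support
        · rw [Finset.sum_eq_single s]
          · simp [mul_comm]
          · intro t _ hts
            simp [hts]
          · intro h; exact absurd hmem h
        · exact absurd (Finsupp.mem_support_iff.2 hs) hmem
      rw [hTy, map_smul, Finsupp.smul_apply, smul_eq_mul] at h1
      exact (mul_right_cancel₀ hs h1).symm
    have h2 : x = ∑ s ∈ (B.repr y).support, B.repr y s • ιMulti_family ℂ (2 * j) b s := by
      have h3 := B.linearCombination_repr y
      rw [Finsupp.linearCombination_apply, Finsupp.sum] at h3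
      have h4 := congrArg (Submodule.subtype _) h3
      rw [map_sum] at h4
      simp only [map_smul, hB, exteriorPower.basis_apply, Submodule.subtype_apply,
        exteriorPower.ιMulti_family_apply_coe] at h4
      exact h4.symm
    rw [h2]
    refine Submodule.sum_mem _ fun s hs => Submodule.smul_mem _ _ ?_
    exact Submodule.subset_span ⟨⟨s, hrepr s (Finsupp.mem_support_iff.1 hs)⟩, rfl⟩
  · rw [Submodule.span_le]
    rintro _ ⟨⟨s, hs⟩, rfl⟩
    rw [SetLike.mem_coe, mem_tateClasses_iff]
    refine ⟨?_, ?_⟩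
    · have := (exteriorPower.ιMulti_family ℂ (2 * j) b s).2
      rwa [exteriorPower.ιMulti_family_apply_coe] at this
    · show ExteriorAlgebra.map G (ιMulti_family ℂ (2 * j) b s) = _
      rw [map_family hG, hs]

theorem tateClasses_eq_pow (hG : ∀ i, G (b i) = μ i • b i)
    (hpair : ∀ (j : ℕ) (l : List I), l.length = 2 * (j + 1) → (l.map μ).prod = Q ^ (j + 1) →
      ∃ x y t, l.Perm (x :: y :: t) ∧ μ x * μ y = Q) (hQ : Q ≠ 0) (j : ℕ) :
    tateClasses G Q j = (tateClasses G Q 1) ^ j := by
  apply le_antisymm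
  · rw [tateClasses_eq_span hG, Submodule.span_le]
    rintro _ ⟨⟨s, hs⟩, rfl⟩
    have h := prod_mem_pow hG hpair hQ j (List.ofFn (Set.powersetCard.ofFinEmbEquiv.symm s))
      (by simp) hs
    rw [List.map_ofFn] at h
    rw [SetLike.mem_coe]
    show ιMulti_family ℂ (2 * j) b s ∈ _
    rw [ιMulti_family, ιMulti_apply]
    exact h
  · exact pow_le_tateClasses G Q j

variable [Fintype I]

theorem det_eq (hG : ∀ i, G (b i) = μ i • b i) (d : ℕ) (c : ℂ) :
    LinearMap.det (1 - c • exteriorPower.map d G) =
      ∏ s : Set.powersetCard I d, (1 - c * eig μ s) := by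
  classical
  rw [← LinearMap.det_toMatrix (b.exteriorPower d)]
  have h : LinearMap.toMatrix (b.exteriorPower d) (b.exteriorPower d)
      (1 - c • exteriorPower.map d G) =
      Matrix.diagonal fun s : Set.powersetCard I d => 1 - c * eig μ s := by
    ext s t
    rw [LinearMap.toMatrix_apply, LinearMap.sub_apply, LinearMap.smul_apply, map_basis hG,
      Module.End.one_apply, map_sub, map_smul, map_smul, Basis.repr_self]
    simp only [Finsupp.coe_sub, Finsupp.coe_smul, Pi.sub_apply, Pi.smul_apply, smul_eq_mul,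
      Finsupp.single_apply, Matrix.diagonal_apply]
    by_cases hst : s = t
    · subst hst; simp
    · rw [if_neg hst, if_neg (Ne.symm hst)]; simp
  rw [h, Matrix.det_diagonal]

theorem finrank_tateClasses (hG : ∀ i, G (b i) = μ i • b i) (j : ℕ) :
    finrank ℂ (tateClasses G Q j) =
      Fintype.card {s : Set.powersetCard I (2 * j) // eig μ s = Q ^ j} := by
  classical
  rw [tateClasses_eq_span hG]
  rw [finrank_span_eq_card]
  have h : LinearIndependent ℂ fun s : Set.powersetCard I (2 * j) =>
      (Submodule.subtype _) (exteriorPower.ιMulti_family ℂ (2 * j) b s) := by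
    apply LinearIndependent.map' _ _ (Submodule.ker_subtype _)
    exact exteriorPower.ιMulti_family_linearIndependent_ofBasis ℂ (2 * j) b
  have h2 := h.comp (fun s : {s : Set.powersetCard I (2 * j) // eig μ s = Q ^ j} => s.1)
    Subtype.val_injective
  exact h2

end Basis

end Pool.Agent.Work.MP_223b32_ag
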