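import Mathlib
import Pool.Agent.Work.MP_223b32_ag.Defs
import Pool.Agent.Work.MP_223b32_ag.LinAlg

/-!
# The order of the pole and the eigenbasis
-/

namespace Pool.Agent.Work.MP_223b32_ag

open ExteriorAlgebra Module Filter Topology

theorem hasDerivAt_pow (Q : ℝ) (hQ : 1 < Q) (e : ℂ) (x : ℝ) :
    HasDerivAt (fun y : ℝ => 1 - (Q : ℂ) ^ (-(y : ℂ)) * e)
      (Complex.log Q * (Q : ℂ) ^ (-(x : ℂ)) * e) x := by
  have h0 : (Q : ℂ) ≠ 0 := by
    have : Q ≠ 0 := by positivity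
    exact_mod_cast this
  have h1 : HasDerivAt (fun y : ℂ => -y) (-1) (x : ℂ) := (hasDerivAt_id (x : ℂ)).neg
  have h2 : HasDerivAt (fun y : ℝ => (Q : ℂ) ^ (-(y : ℂ)))
      ((Q : ℂ) ^ (-(x : ℂ)) * Complex.log Q * (-1)) x :=
    (h1.const_cpow (Or.inl h0)).comp_ofReal
  have h3 := (h2.mul_const e).const_sub 1
  have h4 : Complex.log Q * (Q : ℂ) ^ (-(x : ℂ)) * e =
      -((Q : ℂ) ^ (-(x : ℂ)) * Complex.log Q * (-1) * e) := by ring
  rw [h4]
  exact h3

theorem tendsto_factor (Q : ℝ) (hQ : 1 < Q) (e : ℂ) (j : ℕ) :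
    ∃ c : ℂ, c ≠ 0 ∧ Tendsto (fun s : ℝ =>
      (if e = (Q : ℂ) ^ j then (((s - (j : ℝ) : ℝ) : ℂ)) else 1) *
        (1 - (Q : ℂ) ^ (-(s : ℂ)) * e)⁻¹) (𝓝[>] (j : ℝ)) (𝓝 c) := by
  have h0 : (Q : ℂ) ≠ 0 := by
    have : Q ≠ 0 := by positivity
    exact_mod_cast this
  have hj : (Q : ℂ) ^ (-(((j : ℝ) : ℂ))) * (Q : ℂ) ^ j = 1 := by
    rw [Complex.ofReal_natCast, Complex.cpow_neg, Complex.cpow_natCast,
      inv_mul_cancel₀ (pow_ne_zero _ h0)]
  have hd := hasDerivAt_pow Q hQ e j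
  by_cases he : e = (Q : ℂ) ^ j
  · have hlog : Complex.log Q ≠ 0 := by
      rw [← Complex.ofReal_log (by positivity)]
      have := Real.log_pos hQ
      exact_mod_cast this.ne'
    have hval : Complex.log Q * (Q : ℂ) ^ (-((j : ℝ) : ℂ)) * e = Complex.log Q := by
      rw [he, mul_assoc, hj, mul_one]
    rw [hval] at hd
    refine ⟨(Complex.log Q)⁻¹, inv_ne_zero hlog, ?_⟩
    rw [hasDerivAt_iff_tendsto_slope] at hd
    have h1 := (hd.inv₀ hlog).mono_left (nhdsWithin_mono (j : ℝ)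
      (fun x (hx : x ∈ Set.Ioi (j : ℝ)) => (ne_of_gt hx : x ≠ (j : ℝ))))
    refine h1.congr' ?_
    filter_upwards with s
    rw [if_pos he, slope_def_module]
    have h2 : (1 - (Q : ℂ) ^ (-(((j : ℝ) : ℂ))) * e) = 0 := by rw [he, hj, sub_self]
    rw [h2, sub_zero, Complex.real_smul, mul_inv, Complex.ofReal_inv, inv_inv]
  · have hne : (1 - (Q : ℂ) ^ (-(((j : ℝ) : ℂ))) * e) ≠ 0 := by
      intro h
      apply he
      have h1 : (Q : ℂ) ^ (-(((j : ℝ) : ℂ))) * e = 1 := (sub_eq_zero.1 h).symm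
      have h2 : (Q : ℂ) ^ (-(((j : ℝ) : ℂ))) ≠ 0 := left_ne_zero_of_mul_eq_one h1
      exact mul_left_cancel₀ h2 (h1.trans hj.symm)
    refine ⟨(1 - (Q : ℂ) ^ (-(((j : ℝ) : ℂ))) * e)⁻¹, inv_ne_zero hne, ?_⟩
    have h1 : Tendsto (fun y : ℝ => (1 - (Q : ℂ) ^ (-(y : ℂ)) * e)⁻¹) (𝓝[>] (j : ℝ))
        (𝓝 (1 - (Q : ℂ) ^ (-(((j : ℝ) : ℂ))) * e)⁻¹) :=
      (hd.continuousAt.tendsto.mono_left nhdsWithin_le_nhds).inv₀ hne
    refine h1.congr' ?_
    filter_upwards with s
    rw [if_neg he, one_mul]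

section

variable {V : Type*} [AddCommGroup V] [Module ℂ V] [Module.Finite ℂ V] {I : Type*}
  [LinearOrder I] [Fintype I] {b : Basis I ℂ V} {G : End ℂ V} {μ : I → ℂ}

theorem hasPoleOrder (hG : ∀ i, G (b i) = μ i • b i) {Q : ℝ} (hQ : 1 < Q) (j : ℕ) :
    HasPoleOrder (Lfun G Q j) j (finrank ℂ (tateClasses G (Q : ℂ) j)) := by
  classical
  choose c hc0 hc using fun s : Set.powersetCard I (2 * j) => tendsto_factor Q hQ (eig μ s) j
  refine ⟨∏ s, c s, Finset.prod_ne_zero_iff.2 fun s _ => hc0 s, ?_⟩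
  have h := tendsto_finsetProd Finset.univ fun s _ => hc s
  refine h.congr fun x => ?_
  rw [Lfun, det_eq hG, Finset.prod_mul_distrib, Finset.prod_inv_distrib,
    finrank_tateClasses hG, Finset.prod_ite, Finset.prod_const_one, mul_one, Finset.prod_const,
    Fintype.card_subtype]

end

section

variable {V : Type*} [AddCommGroup V] [Module ℂ V] [Module.Finite ℂ V]

theorem exists_eigenbasis {F : End ℂ V} (hF : F.IsSemisimple) :
    ∃ (b : Basis (Fin (finrank ℂ V)) ℂ V) (lam : Fin (finrank ℂ V) → ℂ),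
      ∀ i, F.HasEigenvector (lam i) (b i) := by
  have h1 : (⊤ : Submodule ℂ V) ≤ Submodule.span ℂ {v | ∃ μ : ℂ, F v = μ • v} := by
    rw [← hF.iSup_eigenspace_eq_top, iSup_le_iff]
    intro μ v hv
    exact Submodule.subset_span ⟨μ, End.mem_eigenspace_iff.1 hv⟩
  let b0 := Basis.ofSpan h1
  have h2 : ∀ i, ∃ μ : ℂ, F (b0 i) = μ • b0 i := fun i => Basis.ofSpan_subset h1 ⟨i, rfl⟩
  let e := b0.indexEquiv (finBasis ℂ V)
  choose μ hμ using h2
  refine ⟨b0.reindex e, fun i => μ (e.symm i), fun i => ?_⟩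
  rw [Basis.reindex_apply]
  exact ⟨End.mem_eigenspace_iff.2 (hμ _), b0.ne_zero _⟩

end

/-- The pairing lemma. -/
theorem exists_pair {q : ℂ} (hq : q ≠ 0) {P : ℂ → Prop}
    (hcount : ∀ s : Multiset ℂ, (∀ z ∈ s, P z) → ∀ n j : ℕ, 0 < n → s.card = 2 * j →
      s.prod ^ n = q ^ (n * j) → ∀ z, P z → s.count (q / z) = s.count z)
    {n : ℕ} (hn : 0 < n) {s : Multiset ℂ} (hs : ∀ z ∈ s, P z ∨ z ^ (2 * n) = q ^ n) {j : ℕ}
    (hcard : s.card = 2 * (j + 1)) (hprod : s.prod ^ n = q ^ (n * (j + 1))) :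
    ∃ x y t, s = x ::ₘ y ::ₘ t ∧ x ^ n * y ^ n = q ^ n := by
  classical
  set s1 := s.filter fun z => ¬ z ^ (2 * n) = q ^ n with hs1
  set s2 := s.filter fun z => z ^ (2 * n) = q ^ n with hs2
  have hsum : s2 + s1 = s := Multiset.filter_add_not _ _
  have hs1P : ∀ z ∈ s1, P z := by
    intro z hz
    rw [hs1, Multiset.mem_filter] at hz
    exact (hs z hz.1).resolve_right hz.2
  have hprod2 : ∀ t : Multiset ℂ, (∀ z ∈ t, z ^ (2 * n) = q ^ n) →
      t.prod ^ (2 * n) = q ^ (n * t.card) := by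
    intro t
    induction t using Multiset.induction_on with
    | empty => intro _; simp
    | cons a t ih =>
      intro h
      rw [Multiset.prod_cons, mul_pow, h a (Multiset.mem_cons_self a t),
        ih fun z hz => h z (Multiset.mem_cons_of_mem hz), Multiset.card_cons, mul_add, mul_one,
        pow_add, mul_comm]
  have hs2pr : s2.prod ^ (2 * n) = q ^ (n * s2.card) :=
    hprod2 s2 fun z hz => by rw [hs2, Multiset.mem_filter] at hz; exact hz.2
  have hcard' : s2.card + s1.card = 2 * (j + 1) := by rw [← Multiset.card_add, hsum, hcard]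
  have hs1pr : (s1 + s1).prod ^ (2 * n) = q ^ (2 * n * s1.card) := by
    have h1 : s.prod ^ (2 * n) = q ^ (n * (s2.card + s1.card)) := by
      rw [mul_comm 2 n, pow_mul, hprod, ← pow_mul, hcard']
      congr 1; ring
    have h2 : s.prod = s2.prod * s1.prod := by rw [← hsum, Multiset.prod_add]
    rw [h2, mul_pow, hs2pr, mul_add, pow_add] at h1
    have h3 := mul_left_cancel₀ (pow_ne_zero _ hq) h1
    rw [Multiset.prod_add, mul_pow, h3, ← pow_add]
    congr 1; ring
  by_cases hne : s1 = 0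
  · -- only supersingular eigenvalues
    have hall : ∀ z ∈ s, z ^ (2 * n) = q ^ n := by
      intro z hz
      rw [← hsum, hne, add_zero, hs2, Multiset.mem_filter] at hz
      exact hz.2
    obtain ⟨x, hx⟩ : ∃ x, x ∈ s := Multiset.card_pos_iff_exists_mem.1 (by rw [hcard]; omega)
    obtain ⟨s', hs'⟩ := Multiset.exists_cons_of_mem hx
    have hc' : s'.card = 2 * j + 1 := by
      rw [hs', Multiset.card_cons] at hcard; omega
    obtain ⟨y, hy⟩ : ∃ y, y ∈ s' := Multiset.card_pos_iff_exists_mem.1 (by rw [hc']; omega)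
    obtain ⟨t, ht⟩ := Multiset.exists_cons_of_mem hy
    subst ht
    have hxs : x ^ n * x ^ n = q ^ n := by
      rw [← pow_two, ← pow_mul, mul_comm n 2]; exact hall x hx
    have hys : y ^ n * y ^ n = q ^ n := by
      rw [← pow_two, ← pow_mul, mul_comm n 2]
      exact hall y (by rw [hs']; exact Multiset.mem_cons_of_mem hy)
    rcases mul_self_eq_mul_self_iff.1 (hxs.trans hys.symm) with h | h
    · exact ⟨x, y, t, hs', by rw [← h]; exact hxs⟩
    · rcases Multiset.empty_or_exists_mem t with ht | ⟨z, hz⟩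
      · subst ht
        refine ⟨x, y, 0, hs', ?_⟩
        have h4 : j = 0 := by simpa using hc'
        subst h4
        rw [hs'] at hprod
        simpa [mul_pow] using hprod
      · obtain ⟨t', rfl⟩ := Multiset.exists_cons_of_mem hz
        have hzs : z ^ n * z ^ n = q ^ n := by
          rw [← pow_two, ← pow_mul, mul_comm n 2]
          exact hall z (by rw [hs']; exact Multiset.mem_cons_of_mem (Multiset.mem_cons_of_mem hz))
        rcases mul_self_eq_mul_self_iff.1 (hxs.trans hzs.symm) with h' | h'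
        · refine ⟨x, z, y ::ₘ t', ?_, by rw [← h']; exact hxs⟩
          rw [hs', Multiset.cons_swap y z]
        · refine ⟨y, z, x ::ₘ t', ?_, ?_⟩
          · rw [hs', Multiset.cons_swap x y, Multiset.cons_swap x z]
          · have h5 : y ^ n = z ^ n := by
              rw [h] at h'; exact neg_injective h'
            rw [← h5]; exact hys
  · obtain ⟨z, hz⟩ := Multiset.exists_mem_of_ne_zero hne
    have hzP := hs1P z hz
    have h1 := hcount (s1 + s1) (fun w hw => by
      rcases Multiset.mem_add.1 hw with h | h <;> exact hs1P w h) (2 * n) s1.card (by omega)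
      (by rw [Multiset.card_add]; ring) hs1pr z hzP
    rw [Multiset.count_add, Multiset.count_add] at h1
    have h2 : s1.count (q / z) = s1.count z := by omega
    have h3 : q / z ∈ s1 := by
      rw [← Multiset.count_pos, h2, Multiset.count_pos]; exact hz
    have hz0 : z ≠ 0 := by
      rintro rfl
      rw [div_zero] at h3
      -- then `0 ∈ s`, so the product vanishes
      have h4 : (0 : ℂ) ∈ s := by rw [← hsum]; exact Multiset.mem_add.2 (Or.inr h3)
      rw [Multiset.prod_eq_zero h4, zero_pow hn.ne'] at hprod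
      exact pow_ne_zero _ hq hprod.symm
    have h5 : q / z ≠ z := by
      intro h
      have h6 : z * z = q := by rw [div_eq_iff hz0] at h; exact h.symm
      have h7 : z ^ (2 * n) = q ^ n := by rw [pow_mul, pow_two, h6]
      rw [hs1, Multiset.mem_filter] at hz
      exact hz.2 h7
    have hzs : z ∈ s := by rw [← hsum]; exact Multiset.mem_add.2 (Or.inr hz)
    have hqs : q / z ∈ s := by rw [← hsum]; exact Multiset.mem_add.2 (Or.inr h3)
    obtain ⟨t, rfl⟩ := Multiset.exists_cons_of_mem hzs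
    rw [Multiset.mem_cons] at hqs
    obtain ⟨t', rfl⟩ := Multiset.exists_cons_of_mem (hqs.resolve_left h5)
    refine ⟨z, q / z, t', rfl, ?_⟩
    rw [← mul_pow, mul_div_cancel₀ _ hz0]

/-- The pairing lemma for lists of indices. -/
theorem exists_pair_list {I : Type*} {q : ℂ} (hq : q ≠ 0) {P : ℂ → Prop}
    (hcount : ∀ s : Multiset ℂ, (∀ z ∈ s, P z) → ∀ n j : ℕ, 0 < n → s.card = 2 * j →
      s.prod ^ n = q ^ (n * j) → ∀ z, P z → s.count (q / z) = s.count z)
    {n : ℕ} (hn : 0 < n) {lam : I → ℂ} (hlam : ∀ i, P (lam i) ∨ lam i ^ (2 * n) = q ^ n)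
    (j : ℕ) (l : List I) (hl : l.length = 2 * (j + 1))
    (hprod : (l.map fun i => lam i ^ n).prod = (q ^ n) ^ (j + 1)) :
    ∃ x y t, l.Perm (x :: y :: t) ∧ lam x ^ n * lam y ^ n = q ^ n := by
  classical
  have h1 : (l.map fun i => lam i ^ n).prod = ((l.map lam).prod) ^ n := by
    clear hprod hl
    induction l with
    | nil => simp
    | cons a l ih => simp [mul_pow, ih]
  obtain ⟨x, y, t, hst, hxy⟩ := exists_pair hq hcount hn (s := ((l : Multiset I).map lam))
    (fun z hz => by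
      obtain ⟨i, _, rfl⟩ := Multiset.mem_map.1 hz
      exact hlam i) (j := j) (by simpa using hl) (by
      rw [Multiset.map_coe, Multiset.prod_coe, ← h1, hprod, ← pow_mul])
  have hx : x ∈ (l : Multiset I).map lam := by rw [hst]; exact Multiset.mem_cons_self _ _
  obtain ⟨i, hi, rfl⟩ := Multiset.mem_map.1 hx
  obtain ⟨M, hM⟩ := Multiset.exists_cons_of_mem hi
  rw [hM, Multiset.map_cons, Multiset.cons_inj_right] at hst
  have hy : y ∈ M.map lam := by rw [hst]; exact Multiset.mem_cons_self _ _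
  obtain ⟨i', hi', rfl⟩ := Multiset.mem_map.1 hy
  obtain ⟨M', rfl⟩ := Multiset.exists_cons_of_mem hi'
  refine ⟨i, i', M'.toList, ?_, hxy⟩
  rw [← Multiset.coe_eq_coe, hM, ← Multiset.cons_coe, ← Multiset.cons_coe, Multiset.coe_toList]

/-- The linear algebra and analytic part of the theorems. -/
theorem final {V : Type*} [AddCommGroup V] [Module ℂ V] [Module.Finite ℂ V] {F : End ℂ V}
    (hF : F.IsSemisimple) {q : ℕ} (hq : 1 < q) {P : ℂ → Prop}
    (hcount : ∀ s : Multiset ℂ, (∀ z ∈ s, P z) → ∀ n j : ℕ, 0 < n → s.card = 2 * j →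
      s.prod ^ n = (q : ℂ) ^ (n * j) → ∀ z, P z → s.count ((q : ℂ) / z) = s.count z)
    {n : ℕ} (hn : 0 < n)
    (hP : ∀ μ, F.HasEigenvalue μ → P μ ∨ μ ^ (2 * n) = (q : ℂ) ^ n) (j : ℕ) :
    tateClasses (F ^ n) ((q : ℂ) ^ n) j = tateClasses (F ^ n) ((q : ℂ) ^ n) 1 ^ j ∧
      HasPoleOrder (Lfun (F ^ n) ((q : ℝ) ^ n) j) j
        (finrank ℂ ↥(tateClasses (F ^ n) ((q : ℂ) ^ n) 1 ^ j)) := by
  obtain ⟨b, lam, hb⟩ := exists_eigenbasis hF
  have hG : ∀ i, (F ^ n) (b i) = lam i ^ n • b i := fun i => (hb i).pow_apply n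
  have hq0 : (q : ℂ) ≠ 0 := by
    have : q ≠ 0 := by omega
    exact_mod_cast this
  have h1 : tateClasses (F ^ n) ((q : ℂ) ^ n) j = tateClasses (F ^ n) ((q : ℂ) ^ n) 1 ^ j := by
    refine tateClasses_eq_pow (μ := fun i => lam i ^ n) hG ?_ (pow_ne_zero _ hq0) j
    exact exists_pair_list hq0 hcount hn fun i => hP _ (End.hasEigenvalue_of_hasEigenvector (hb i))
  refine ⟨h1, ?_⟩
  rw [← h1]
  have h2 := hasPoleOrder (μ := fun i => lam i ^ n) hG (Q := (q : ℝ) ^ n)
    (one_lt_pow₀ (by exact_mod_cast hq) hn.ne') j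
  rw [Complex.ofReal_pow, Complex.ofReal_natCast] at h2
  exact h2

end Pool.Agent.Work.MP_223b32_ag
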