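import Pool.Agent.Work.MP_223b32_ag.PowersDefs
import Pool.Agent.Work.MP_223b32_ag.Pole

/-!
# Tate classes on the powers of a variety
-/

namespace Pool.Agent.Work.MP_223b32_ag

open Module Filter Topology

section Diagonal

variable {E κ : Type*} [AddCommGroup E] [Module ℂ E] {B : Basis κ ℂ E} {Φ : End ℂ E} {μ : κ → ℂ}

theorem repr_diag (hB : ∀ k, Φ (B k) = μ k • B k) (x : E) (k : κ) :
    B.repr (Φ x) k = μ k * B.repr x k := by
  classical
  conv_lhs => rw [← B.linearCombination_repr x, Finsupp.linearCombination_apply,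
    Finsupp.sum, map_sum]
  simp only [map_smul, hB, map_sum, Basis.repr_self, Finsupp.coe_finsetSum, Finset.sum_apply,
    Finsupp.smul_apply, smul_eq_mul, Finsupp.single_apply]
  by_cases hmem : k ∈ (B.repr x).support
  · rw [Finset.sum_eq_single k]
    · simp [mul_comm]
    · intro t _ hts
      simp [hts]
    · intro h; exact absurd hmem h
  · rw [Finsupp.notMem_support_iff.1 hmem, mul_zero]
    refine Finset.sum_eq_zero fun t ht => ?_
    have : t ≠ k := fun h => hmem (h ▸ ht)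
    simp [this]

theorem mem_span_of_repr (S : κ → Prop) {x : E} (hx : ∀ k, B.repr x k ≠ 0 → S k) :
    x ∈ Submodule.span ℂ (Set.range fun k : {k // S k} => B k.1) := by
  rw [← B.linearCombination_repr x, Finsupp.linearCombination_apply, Finsupp.sum]
  refine Submodule.sum_mem _ fun k hk => Submodule.smul_mem _ _ ?_
  exact Submodule.subset_span ⟨⟨k, hx k (Finsupp.mem_support_iff.1 hk)⟩, rfl⟩

theorem det_diag [Fintype κ] (hB : ∀ k, Φ (B k) = μ k • B k) (c : ℂ) :
    LinearMap.det (1 - c • Φ) = ∏ k, (1 - c * μ k) := by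
  classical
  rw [← LinearMap.det_toMatrix B]
  have h : LinearMap.toMatrix B B (1 - c • Φ) = Matrix.diagonal fun k => 1 - c * μ k := by
    ext s t
    rw [LinearMap.toMatrix_apply, LinearMap.sub_apply, LinearMap.smul_apply, hB,
      Module.End.one_apply, map_sub, map_smul, map_smul, Basis.repr_self]
    simp only [Finsupp.coe_sub, Finsupp.coe_smul, Pi.sub_apply, Pi.smul_apply, smul_eq_mul,
      Finsupp.single_apply, Matrix.diagonal_apply]
    by_cases hst : s = t
    · subst hst; simp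
    · rw [if_neg hst, if_neg (Ne.symm hst)]; simp
  rw [h, Matrix.det_diagonal]

open scoped Classical in
theorem hasPoleOrder_diag [Fintype κ] (hB : ∀ k, Φ (B k) = μ k • B k) {Q : ℝ} (hQ : 1 < Q)
    (j : ℕ) : HasPoleOrder (fun s => (LinearMap.det (1 - ((Q : ℂ) ^ (-s)) • Φ))⁻¹) j
      (Fintype.card {k // μ k = (Q : ℂ) ^ j}) := by
  choose c hc0 hc using fun k : κ => tendsto_factor Q hQ (μ k) j
  refine ⟨∏ s, c s, Finset.prod_ne_zero_iff.2 fun s _ => hc0 s, ?_⟩
  have h := tendsto_finsetProd Finset.univ fun s _ => hc s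
  refine h.congr fun x => ?_
  show _ = _ * (LinearMap.det (1 - ((Q : ℂ) ^ (-(x : ℂ))) • Φ))⁻¹
  rw [det_diag hB, Finset.prod_mul_distrib, Finset.prod_inv_distrib,
    Finset.prod_ite, Finset.prod_const_one, mul_one, Finset.prod_const,
    Fintype.card_subtype]

end Diagonal

section Eigenbasis

variable {H : Type*} [CommRing H] [Algebra ℂ H] [Module.Finite ℂ H]
  {𝒜 : ℕ → Submodule ℂ H} [GradedAlgebra 𝒜] {φ : H →ₐ[ℂ] H}

/-- A homogeneous basis of eigenvectors. -/
theorem exists_homogeneous_eigenbasis (hφ : ∀ i, ∀ x ∈ 𝒜 i, φ x ∈ 𝒜 i)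
    (hss : End.IsSemisimple φ.toLinearMap) :
    ∃ (κ : Type) (_ : Fintype κ) (b : Basis κ ℂ H) (δ : κ → ℕ) (lam : κ → ℂ),
      (∀ k, b k ∈ 𝒜 (δ k)) ∧ (∀ k, φ (b k) = lam k • b k) ∧
      ∀ d, ∀ h ∈ 𝒜 d, ∀ k, b.repr h k ≠ 0 → δ k = d := by
  classical
  have hfss : End.IsFinitelySemisimple φ.toLinearMap :=
    End.isFinitelySemisimple_iff_isSemisimple.2 hss
  have h1 : ∀ i, ∃ (b : Basis (Fin (finrank ℂ (𝒜 i))) ℂ (𝒜 i))
      (lam : Fin (finrank ℂ (𝒜 i)) → ℂ),
      ∀ k, End.HasEigenvector (LinearMap.restrict φ.toLinearMap (hφ i)) (lam k) (b k) :=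
    fun i => exists_eigenbasis (hfss (𝒜 i) (hφ i) inferInstance)
  choose b lam hb using h1
  have hint : DirectSum.IsInternal 𝒜 := DirectSum.Decomposition.isInternal 𝒜
  let C := hint.collectedBasis b
  have hfin : Finite (Σ i, Fin (finrank ℂ (𝒜 i))) := Module.Finite.finite_basis C
  refine ⟨_, Fintype.ofFinite _, C, fun k => k.1, fun k => lam k.1 k.2, ?_, ?_, ?_⟩
  · intro k
    exact hint.collectedBasis_mem b k
  · intro k
    have h2 := End.HasEigenvector.apply_eq_smul (hb k.1 k.2)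
    have h3 := congrArg Subtype.val h2
    show φ (hint.collectedBasis b k) = _ • (hint.collectedBasis b k)
    rw [hint.collectedBasis_coe]
    exact h3
  · intro d h hh k hk
    by_contra hne
    exact hk (hint.collectedBasis_repr_of_mem_ne b (Ne.symm hne) hh)

end Eigenbasis

section Main

variable {H : Type*} [CommRing H] [Algebra ℂ H]
  {𝒜 : ℕ → Submodule ℂ H} {φ : H →ₐ[ℂ] H} {κ : Type*} {b : Basis κ ℂ H} {δ : κ → ℕ} {lam : κ → ℂ}

theorem powFrob_powBasis (hb : ∀ k, φ (b k) = lam k • b k) (r : ℕ) (s : Fin r → κ) :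
    (powFrob φ r).toLinearMap (powBasis b r s) = (∏ t, lam (s t)) • powBasis b r s := by
  rw [powBasis_apply, AlgHom.toLinearMap_apply, powFrob_prod]
  simp only [hb, map_smul]
  rw [Finset.prod_smul]

theorem mem_powDeg_iff (hδ : ∀ k, b k ∈ 𝒜 (δ k))
    (hrepr : ∀ d, ∀ h ∈ 𝒜 d, ∀ k, b.repr h k ≠ 0 → δ k = d) {r i : ℕ} {x : PowCoh H r} :
    x ∈ powDeg 𝒜 r i ↔ ∀ s, (powBasis b r).repr x s ≠ 0 → ∑ t, δ (s t) = i := by
  constructor
  · intro hx
    induction hx using Submodule.span_induction with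
    | mem x hx =>
      obtain ⟨d, h, hh, hd, rfl⟩ := hx
      intro s hs
      rw [powBasis_repr, Finset.prod_ne_zero_iff] at hs
      rw [← hd]
      exact Finset.sum_congr rfl fun t _ => hrepr _ _ (hh t) _ (hs t (Finset.mem_univ t))
    | zero => intro s hs; simp at hs
    | add x y _ _ hx hy =>
      intro s hs
      rw [map_add, Finsupp.add_apply] at hs
      by_cases h : (powBasis b r).repr x s = 0
      · rw [h, zero_add] at hs
        exact hy s hs
      · exact hx s h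
    | smul c x _ hx =>
      intro s hs
      rw [map_smul, Finsupp.smul_apply, smul_eq_mul] at hs
      exact hx s (right_ne_zero_of_mul hs)
  · intro hx
    have h1 := mem_span_of_repr (B := powBasis b r) (fun s => ∑ t, δ (s t) = i) hx
    refine Submodule.span_le.2 ?_ h1
    rintro _ ⟨⟨s, hs⟩, rfl⟩
    refine Submodule.subset_span ⟨fun t => δ (s t), fun t => b (s t), fun t => hδ _, hs, ?_⟩
    exact powBasis_apply b r s

theorem mem_powTate_iff (hδ : ∀ k, b k ∈ 𝒜 (δ k)) (hb : ∀ k, φ (b k) = lam k • b k)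
    (hrepr : ∀ d, ∀ h ∈ 𝒜 d, ∀ k, b.repr h k ≠ 0 → δ k = d) {Q : ℂ} {r i : ℕ}
    {x : PowCoh H r} :
    x ∈ powTate 𝒜 φ Q r i ↔ ∀ s, (powBasis b r).repr x s ≠ 0 →
      ∑ t, δ (s t) = i ∧ ∏ t, lam (s t) = Q ^ i := by
  rw [powTate, Submodule.mem_inf, mem_powDeg_iff hδ hrepr, End.mem_eigenspace_iff]
  constructor
  · rintro ⟨h1, h2⟩ s hs
    refine ⟨h1 s hs, ?_⟩
    have h3 := repr_diag (B := powBasis b r) (powFrob_powBasis hb r) x s
    rw [h2, map_smul, Finsupp.smul_apply, smul_eq_mul] at h3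
    exact (mul_right_cancel₀ hs h3).symm
  · intro h
    refine ⟨fun s hs => (h s hs).1, ?_⟩
    apply (powBasis b r).ext_elem
    intro s
    rw [repr_diag (B := powBasis b r) (powFrob_powBasis hb r), map_smul, Finsupp.smul_apply,
      smul_eq_mul]
    by_cases hs : (powBasis b r).repr x s = 0
    · rw [hs, mul_zero, mul_zero]
    · rw [(h s hs).2]

theorem powTate_eq_span (hδ : ∀ k, b k ∈ 𝒜 (δ k)) (hb : ∀ k, φ (b k) = lam k • b k)
    (hrepr : ∀ d, ∀ h ∈ 𝒜 d, ∀ k, b.repr h k ≠ 0 → δ k = d) (Q : ℂ) (r i : ℕ) :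
    powTate 𝒜 φ Q r i = Submodule.span ℂ (Set.range
      fun s : {s : Fin r → κ // ∑ t, δ (s t) = i ∧ ∏ t, lam (s t) = Q ^ i} =>
        powBasis b r s.1) := by
  apply le_antisymm
  · intro x hx
    exact mem_span_of_repr _ ((mem_powTate_iff hδ hb hrepr).1 hx)
  · rw [Submodule.span_le]
    rintro _ ⟨⟨s, hs⟩, rfl⟩
    rw [SetLike.mem_coe, mem_powTate_iff hδ hb hrepr]
    intro s' hs'
    rw [Basis.repr_self, Finsupp.single_apply_ne_zero] at hs'
    rw [hs'.1]
    exact hs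

open scoped Classical in
theorem finrank_powTate [Fintype κ] (hδ : ∀ k, b k ∈ 𝒜 (δ k)) (hb : ∀ k, φ (b k) = lam k • b k)
    (hrepr : ∀ d, ∀ h ∈ 𝒜 d, ∀ k, b.repr h k ≠ 0 → δ k = d) (Q : ℂ) (r i : ℕ) :
    finrank ℂ (powTate 𝒜 φ Q r i) =
      Fintype.card {s : Fin r → κ // ∑ t, δ (s t) = i ∧ ∏ t, lam (s t) = Q ^ i} := by
  rw [powTate_eq_span hδ hb hrepr, finrank_span_eq_card]
  exact (powBasis b r).linearIndependent.comp _ Subtype.val_injective

theorem powL_pole [Fintype κ] (hφ : ∀ i, ∀ x ∈ 𝒜 i, φ x ∈ 𝒜 i)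
    (hδ : ∀ k, b k ∈ 𝒜 (δ k)) (hb : ∀ k, φ (b k) = lam k • b k)
    (hrepr : ∀ d, ∀ h ∈ 𝒜 d, ∀ k, b.repr h k ≠ 0 → δ k = d) {Q : ℝ} (hQ : 1 < Q) (r i : ℕ) :
    HasPoleOrder (powL hφ Q r i) i (finrank ℂ (powTate 𝒜 φ (Q : ℂ) r i)) := by
  classical
  have hspan : Submodule.span ℂ (Set.range
      fun s : {s : Fin r → κ // ∑ t, δ (s t) = i} => powBasis b r s.1) = powDeg 𝒜 r i := by
    apply le_antisymm
    · rw [Submodule.span_le]
      rintro _ ⟨⟨s, hs⟩, rfl⟩
      rw [SetLike.mem_coe, mem_powDeg_iff hδ hrepr]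
      intro s' hs'
      rw [Basis.repr_self, Finsupp.single_apply_ne_zero] at hs'
      rw [hs'.1]
      exact hs
    · intro x hx
      exact mem_span_of_repr _ ((mem_powDeg_iff hδ hrepr).1 hx)
  have hli : LinearIndependent ℂ
      fun s : {s : Fin r → κ // ∑ t, δ (s t) = i} => powBasis b r s.1 :=
    (powBasis b r).linearIndependent.comp _ Subtype.val_injective
  let B := (Basis.span hli).map (LinearEquiv.ofEq _ _ hspan)
  have hB : ∀ s, ((B s : powDeg 𝒜 r i) : PowCoh H r) = powBasis b r s.1 := by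
    intro s
    show ((Basis.span hli s : _) : PowCoh H r) = _
    rw [Basis.span_apply]
  have hdiag : ∀ s, LinearMap.restrict (powFrob φ r).toLinearMap (powFrob_mem hφ r i) (B s) =
      (∏ t, lam (s.1 t)) • B s := by
    intro s
    apply Subtype.ext
    rw [LinearMap.coe_restrict_apply, hB, powFrob_powBasis hb, SetLike.val_smul, hB]
  have h1 := hasPoleOrder_diag hdiag hQ i
  rw [finrank_powTate hδ hb hrepr]
  have h2 : Fintype.card {s : Fin r → κ // ∑ t, δ (s t) = i ∧ ∏ t, lam (s t) = (Q : ℂ) ^ i} =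
      Fintype.card {k : {s : Fin r → κ // ∑ t, δ (s t) = i} //
        ∏ t, lam (k.1 t) = (Q : ℂ) ^ i} :=
    (Fintype.card_congr (Equiv.subtypeSubtypeEquivSubtypeInter _ _)).symm
  rw [h2]
  exact h1

theorem pullback_pr_two {r : ℕ} (t t' : Fin r) (x y : H) :
    pullback ![t, t'] (pr 0 x * pr 1 y) = pr t x * pr t' y := by
  have h := powLift_prod (fun u : Fin 2 => pr (H := H) ((![t, t'] : Fin 2 → Fin r) u)) ![x, y]
  rw [Fin.prod_univ_two, Fin.prod_univ_two] at h
  exact h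

theorem mem_powTate_two {Q : ℂ} {x y : H} {c d : ℕ} (hx : x ∈ 𝒜 c) (hy : y ∈ 𝒜 d) {u v : ℂ}
    (hxu : φ x = u • x) (hyv : φ y = v • y) (huv : u * v = Q ^ (c + d)) :
    pr 0 x * pr 1 y ∈ powTate 𝒜 φ Q 2 (c + d) := by
  have e : pr 0 x * pr 1 y = ∏ t : Fin 2, pr t ((![x, y] : Fin 2 → H) t) := by
    rw [Fin.prod_univ_two]; rfl
  rw [powTate, Submodule.mem_inf, End.mem_eigenspace_iff]
  refine ⟨Submodule.subset_span ⟨![c, d], ![x, y], ?_, ?_, e⟩, ?_⟩
  · intro t
    fin_cases t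
    · exact hx
    · exact hy
  · rw [Fin.sum_univ_two]
    rfl
  · rw [AlgHom.toLinearMap_apply, e, powFrob_prod, Fin.prod_univ_two, Fin.prod_univ_two]
    show pr 0 (φ x) * pr 1 (φ y) = Q ^ (c + d) • (pr 0 x * pr 1 y)
    rw [hxu, hyv, map_smul, map_smul, smul_mul_smul_comm, huv]

/-- The basis vectors which are Tate classes lie in the algebra generated by pullbacks of Tate
classes on `X × X`. -/
theorem prod_mem_genAlg {Q : ℂ} (hQ : Q ≠ 0) {P : ℂ → Prop} [GradedAlgebra 𝒜]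
    (hδ : ∀ k, b k ∈ 𝒜 (δ k)) (hb : ∀ k, φ (b k) = lam k • b k)
    (hT : ∀ k, lam k = Q ^ δ k ∨ (δ k = 1 ∧ P (lam k)))
    (hpair : ∀ s : Multiset ℂ, (∀ z ∈ s, P z) → s ≠ 0 → s.prod = Q ^ s.card →
      ∃ x y t, s = x ::ₘ y ::ₘ t ∧ x * y = Q ^ 2) {r : ℕ} (s : Fin r → κ) :
    ∀ (n : ℕ) (J : Finset (Fin r)), J.card = n → ∏ t ∈ J, lam (s t) = Q ^ ∑ t ∈ J, δ (s t) →
      ∏ t ∈ J, pr t (b (s t)) ∈
        genAlg 𝒜 φ Q r := by
  classical
  intro n
  induction n using Nat.strong_induction_on with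
  | _ n ih =>
    intro J hJ hprod
    by_cases hex : ∃ t ∈ J, lam (s t) = Q ^ δ (s t)
    · obtain ⟨t, ht, hlam⟩ := hex
      have h1 : ∏ t ∈ J.erase t, lam (s t) = Q ^ ∑ t ∈ J.erase t, δ (s t) := by
        rw [← Finset.mul_prod_erase J _ ht, ← Finset.add_sum_erase J _ ht, pow_add, hlam] at hprod
        exact mul_left_cancel₀ (pow_ne_zero _ hQ) hprod
      have h2 := ih (n - 1) (by
        have := Finset.card_pos.2 ⟨t, ht⟩
        omega) (J.erase t) (by rw [Finset.card_erase_of_mem ht, hJ]) h1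
      rw [← Finset.mul_prod_erase J _ ht]
      refine mul_mem ?_ h2
      refine Algebra.subset_adjoin ⟨![t, t], δ (s t) + 0, pr 0 (b (s t)) * pr 1 1, ?_, ?_⟩
      · refine mem_powTate_two (hδ _) (SetLike.one_mem_graded 𝒜) (hb _) (v := 1) ?_ ?_
        · rw [map_one, one_smul]
        · rw [mul_one, add_zero, hlam]
      · rw [pullback_pr_two, map_one, mul_one]
    · push Not at hex
      rcases Finset.eq_empty_or_nonempty J with rfl | hne
      · rw [Finset.prod_empty]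
        exact one_mem _
      · have hall : ∀ t ∈ J, δ (s t) = 1 ∧ P (lam (s t)) := fun t ht =>
          (hT (s t)).resolve_left (hex t ht)
        have hsum : ∑ t ∈ J, δ (s t) = J.card := by
          rw [Finset.card_eq_sum_ones]
          exact Finset.sum_congr rfl fun t ht => (hall t ht).1
        obtain ⟨x, y, T, hT1, hxy⟩ := hpair (J.val.map fun t => lam (s t)) (fun z hz => by
          obtain ⟨t, ht, rfl⟩ := Multiset.mem_map.1 hz
          exact (hall t ht).2) (by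
          intro h
          rw [Multiset.map_eq_zero, Finset.val_eq_zero] at h
          exact hne.ne_empty h) (by
          rw [Multiset.card_map]
          rw [hsum] at hprod
          exact hprod)
        have hx : x ∈ J.val.map fun t => lam (s t) := by
          rw [hT1]; exact Multiset.mem_cons_self _ _
        obtain ⟨t, ht, rfl⟩ := Multiset.mem_map.1 hx
        have ht' : t ∈ J := ht
        have hJt : J.val = t ::ₘ (J.erase t).val := by
          rw [Finset.erase_val, Multiset.cons_erase ht]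
        rw [hJt, Multiset.map_cons, Multiset.cons_inj_right] at hT1
        have hy : y ∈ (J.erase t).val.map fun t => lam (s t) := by
          rw [hT1]; exact Multiset.mem_cons_self _ _
        obtain ⟨t', ht'', rfl⟩ := Multiset.mem_map.1 hy
        have ht3 : t' ∈ J.erase t := ht''
        have hd1 := (hall t ht').1
        have hd2 := (hall t' (Finset.mem_of_mem_erase ht3)).1
        have h1 : ∏ t ∈ (J.erase t).erase t', lam (s t) =
            Q ^ ∑ t ∈ (J.erase t).erase t', δ (s t) := by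
          rw [← Finset.mul_prod_erase J _ ht', ← Finset.add_sum_erase J _ ht',
            ← Finset.mul_prod_erase (J.erase t) _ ht3, ← Finset.add_sum_erase (J.erase t) _ ht3,
            hd1, hd2, ← mul_assoc, hxy, ← add_assoc, pow_add] at hprod
          exact mul_left_cancel₀ (pow_ne_zero _ hQ) hprod
        have hcard1 : (J.erase t).card = n - 1 := by rw [Finset.card_erase_of_mem ht', hJ]
        have hcard2 : ((J.erase t).erase t').card = n - 1 - 1 := by
          rw [Finset.card_erase_of_mem ht3, hcard1]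
        have hpos : 0 < n := by rw [← hJ]; exact Finset.card_pos.2 ⟨t, ht'⟩
        have h2 := ih (n - 1 - 1) (by omega) _ hcard2 h1
        rw [← Finset.mul_prod_erase J _ ht', ← Finset.mul_prod_erase (J.erase t) _ ht3,
          ← mul_assoc]
        refine mul_mem ?_ h2
        refine Algebra.subset_adjoin ⟨![t, t'], δ (s t) + δ (s t'),
          pr 0 (b (s t)) * pr 1 (b (s t')), ?_, ?_⟩
        · refine mem_powTate_two (hδ _) (hδ _) (hb _) (hb _) ?_
          rw [hd1, hd2, hxy]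
        · rw [pullback_pr_two]

theorem powTate_le_genAlg {Q : ℂ} (hQ : Q ≠ 0) {P : ℂ → Prop} [GradedAlgebra 𝒜]
    (hδ : ∀ k, b k ∈ 𝒜 (δ k)) (hb : ∀ k, φ (b k) = lam k • b k)
    (hrepr : ∀ d, ∀ h ∈ 𝒜 d, ∀ k, b.repr h k ≠ 0 → δ k = d)
    (hT : ∀ k, lam k = Q ^ δ k ∨ (δ k = 1 ∧ P (lam k)))
    (hpair : ∀ s : Multiset ℂ, (∀ z ∈ s, P z) → s ≠ 0 → s.prod = Q ^ s.card →
      ∃ x y t, s = x ::ₘ y ::ₘ t ∧ x * y = Q ^ 2) (r i : ℕ) :
    powTate 𝒜 φ Q r i ≤ Subalgebra.toSubmodule (genAlg 𝒜 φ Q r) := by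
  rw [powTate_eq_span hδ hb hrepr, Submodule.span_le]
  rintro _ ⟨⟨s, hs1, hs2⟩, rfl⟩
  rw [SetLike.mem_coe, Subalgebra.mem_toSubmodule]
  show powBasis b r s ∈ _
  rw [powBasis_apply]
  exact prod_mem_genAlg hQ hδ hb hT hpair s _ Finset.univ rfl (by rw [hs1, hs2])

end Main

/-- The linear algebra and analytic part of the theorem on powers. -/
theorem powers_final {H : Type*} [CommRing H] [Algebra ℂ H] [Module.Finite ℂ H]
    (𝒜 : ℕ → Submodule ℂ H) [GradedAlgebra 𝒜] (φ : H →ₐ[ℂ] H)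
    (hφ : ∀ i, ∀ x ∈ 𝒜 i, φ x ∈ 𝒜 i) (hss : End.IsSemisimple φ.toLinearMap) {q : ℕ} (hq : 1 < q)
    {P : ℂ → Prop} (hT : ∀ i ≠ 1, ∀ x ∈ 𝒜 i, φ x = (q : ℂ) ^ i • x)
    (hE : ∀ μ : ℂ, ∀ x ∈ 𝒜 1, x ≠ 0 → φ x = μ • x → μ = q ∨ P μ)
    (hpair : ∀ s : Multiset ℂ, (∀ z ∈ s, P z) → s ≠ 0 → s.prod = (q : ℂ) ^ s.card →
      ∃ x y t, s = x ::ₘ y ::ₘ t ∧ x * y = (q : ℂ) ^ 2) (r i : ℕ) :
    powTate 𝒜 φ q r i ≤ Subalgebra.toSubmodule (genAlg 𝒜 φ q r) ∧
      HasPoleOrder (powL hφ q r i) i (finrank ℂ (powTate 𝒜 φ q r i)) := by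
  obtain ⟨κ, _, b, δ, lam, hδ, hb, hrepr⟩ := exists_homogeneous_eigenbasis hφ hss
  have hq0 : (q : ℂ) ≠ 0 := by
    have : q ≠ 0 := by omega
    exact_mod_cast this
  constructor
  · refine powTate_le_genAlg hq0 hδ hb hrepr (P := P) (fun k => ?_) hpair r i
    have hbk : b k ≠ 0 := b.ne_zero k
    by_cases hk : δ k = 1
    · rcases hE (lam k) (b k) (hk ▸ hδ k) hbk (hb k) with h | h
      · left; rw [h, hk, pow_one]
      · right; exact ⟨hk, h⟩
    · left
      have h1 := hT _ hk _ (hδ k)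
      rw [hb k] at h1
      exact smul_left_injective ℂ hbk h1
  · have h := powL_pole hφ hδ hb hrepr (Q := (q : ℝ)) (by exact_mod_cast hq) r i
    rw [Complex.ofReal_natCast] at h
    exact h

end Pool.Agent.Work.MP_223b32_ag
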