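import Pool.Agent.Work.MP_223b32_ag.K3Arith
import Pool.Agent.Work.MP_223b32_ag.Powers

/-!
# Powers of K3 surfaces of odd height
-/

namespace Pool.Agent.Work.MP_223b32_ag

open Polynomial Module

theorem slope_two_mul {p : ℕ} [hp : Fact p.Prime] {a : ℕ} (x : PadicAlgCl p) :
    slope p (2 * a) x = slope p a x / 2 := by
  unfold slope Real.logb
  rw [Real.log_pow, Real.log_pow]
  push_cast
  rw [mul_assoc, neg_div, div_div, mul_comm 2]

theorem sum_map_eq_card {α : Type*} (s : Multiset α) (m : α → ℤ) (P : α → Prop) [DecidablePred P]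
    (h : ∀ x ∈ s, max (m x) 0 = if P x then 1 else 0) :
    (s.map fun x => max (m x) 0).sum = (s.filter P).card := by
  induction s using Multiset.induction_on with
  | empty => simp
  | cons a s ih =>
    rw [Multiset.map_cons, Multiset.sum_cons, ih fun x hx => h x (Multiset.mem_cons_of_mem hx),
      h a (Multiset.mem_cons_self a s)]
    by_cases ha : P a
    · rw [if_pos ha, Multiset.filter_cons_of_pos _ ha, Multiset.card_cons]
      push_cast
      ring
    · rw [if_neg ha, Multiset.filter_cons_of_neg _ ha, zero_add]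

theorem k3_final (p : ℕ) [hp : Fact p.Prime] (a : ℕ) (ha : 0 < a) (f : ℚ[X]) (d h : ℕ)
    (hfp : IsTransPoly p a f d h) (hodd : Odd h)
    (hd : (∃ k, d = 2 ^ k) ∨ d.Prime ∨ d = h + 1)
    (H : Type*) [CommRing H] [Algebra ℂ H] [Module.Finite ℂ H]
    (𝒜 : ℕ → Submodule ℂ H) [GradedAlgebra 𝒜] (φ : H →ₐ[ℂ] H)
    (hH : IsCohomology (p ^ a) f 𝒜 φ) (r i : ℕ) :
    (∀ z ∈ powTate 𝒜 φ (p ^ a : ℕ) r i, z ∈ genAlg 𝒜 φ (p ^ a : ℕ) r) ∧
      HasPoleOrder (powL hH.map_mem (p ^ a : ℕ) r i) i
        (finrank ℂ (powTate 𝒜 φ (p ^ a : ℕ) r i)) := by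
  classical
  obtain ⟨hf, hint, hweil, hnd, hdeg, ⟨c, hc, hslope⟩, hh⟩ := hfp
  replace hh : ((f.aroots (PadicAlgCl p)).filter fun x => 1 < slope p a x).card = h := by
    have hnodup : (f.aroots (PadicAlgCl p)).Nodup := nodup_aroots_iff_of_splits hf.ne_zero
      (IsAlgClosed.splits _) |>.2 hf.separable
    rw [← hh, ← Multiset.toFinset_card_of_nodup (hnodup.filter _), ← Set.ncard_coe_finset]
    congr 1
    ext x
    rw [Finset.mem_coe, Multiset.mem_toFinset, Multiset.mem_filter, mem_aroots]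
    exact ⟨fun h => ⟨h.1.2, h.2⟩, fun h => ⟨⟨hf.ne_zero, h.1⟩, h.2⟩⟩
  have hT := hH.eq_of_ne_one
  have hE := hH.eigenvalue
  refine powers_final 𝒜 φ hH.map_mem hH.isSemisimple (Nat.one_lt_pow ha.ne' hp.out.one_lt)
    (P := fun μ => aeval μ f = 0) hT hE (fun s hs hne hprod => ?_) r i
  let m : PadicAlgCl p → ℤ := fun x =>
    if slope p a x = 1 then 0 else if 1 < slope p a x then 1 else -1
  have hmslope : ∀ x, aeval x f = 0 → slope p (2 * a) x = (1 + c * m x) / 2 := by
    intro x hx
    rw [slope_two_mul]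
    congr 1
    show _ = 1 + c * ((if slope p a x = 1 then 0 else if 1 < slope p a x then 1 else -1 : ℤ) : ℝ)
    rcases hslope x hx with h1 | h1 | h1
    · rw [if_neg (by rw [h1]; linarith), if_neg (by rw [h1]; linarith), h1]
      push_cast
      ring
    · rw [if_pos h1, h1]
      push_cast
      ring
    · rw [if_neg (by rw [h1]; linarith), if_pos (by rw [h1]; linarith), h1]
      push_cast
      ring
  have hm1 : ∀ x, aeval x f = 0 → |m x| ≤ 1 := by
    intro x _
    show |(if slope p a x = 1 then 0 else if 1 < slope p a x then 1 else -1 : ℤ)| ≤ 1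
    split_ifs <;> norm_num
  have hsum : ((f.aroots (PadicAlgCl p)).map fun x => max (m x) 0).sum = h := by
    rw [← hh]
    refine sum_map_eq_card _ _ _ fun x hx => ?_
    show max (if slope p a x = 1 then 0 else if 1 < slope p a x then 1 else -1 : ℤ) 0 = _
    by_cases h1 : slope p a x = 1
    · rw [if_pos h1, if_neg (by rw [h1]; exact lt_irrefl _)]
      norm_num
    · rw [if_neg h1]
      split_ifs <;> norm_num
  have hweil2 : IsWeil (p ^ (2 * a)) f := by
    intro z hz
    rw [hweil z hz]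
    push_cast
    ring
  refine pair_k3 (d := d) (c := c) (m := m) ha hf hint hweil2 hdeg hc hmslope hm1 ?_ hnd ?_ hs hne
    hprod
  · rw [hsum]
    exact_mod_cast hodd
  · rcases hd with h1 | h1 | h1
    · exact Or.inl h1
    · exact Or.inr (Or.inl h1)
    · right; right
      rw [hsum, h1]
      push_cast
      ring

end Pool.Agent.Work.MP_223b32_ag
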