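import Pool.Agent.Work.MP_223b32_ag.Defs

/-!
# The even cohomology of the powers of a variety

Let `H` be the even cohomology ring (with complex coefficients, for some embedding of `Q_l` in `C`)
of a smooth projective variety `X` over a finite field, `𝒜 d = H^(2d)` and `φ` its geometric
Frobenius.  If the odd cohomology of `X` vanishes then, by the Künneth formula, the cohomology ring
of `X ^ r` is the `r`-th tensor power of `H`.
-/

namespace Pool.Agent.Work.MP_223b32_ag

/-- The cohomology ring of `X ^ r`, the `r`-th tensor power of the one of `X`. -/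
def PowCoh (H : Type*) [CommRing H] [Algebra ℂ H] (r : ℕ) : Type _ :=
  PiTensorProduct ℂ fun _ : Fin r => H

variable {H : Type*} [CommRing H] [Algebra ℂ H]

noncomputable instance instCommRingPowCoh (r : ℕ) : CommRing (PowCoh H r) :=
  PiTensorProduct.instCommRing

noncomputable instance instAlgebraPowCoh (r : ℕ) : Algebra ℂ (PowCoh H r) :=
  PiTensorProduct.instAlgebra

/-- The pullback along the `t`-th projection `X ^ r → X`, that is
`x ↦ 1 ⊗ ... ⊗ 1 ⊗ x ⊗ 1 ⊗ ... ⊗ 1`. -/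
noncomputable def pr {r : ℕ} (t : Fin r) : H →ₐ[ℂ] PowCoh H r :=
  PiTensorProduct.singleAlgHom (A := fun _ : Fin r => H) t

/-- The algebra homomorphism sending `h_1 ⊗ ... ⊗ h_r` to the product of the `f_t(h_t)`. -/
noncomputable def powLift {R : Type*} [CommRing R] [Algebra ℂ R] {r : ℕ}
    (f : Fin r → (H →ₐ[ℂ] R)) : PowCoh H r →ₐ[ℂ] R :=
  PiTensorProduct.liftAlgHom (A := fun _ : Fin r => H)
    ((MultilinearMap.mkPiAlgebra ℂ (Fin r) R).compLinearMap fun t => (f t).toLinearMap)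
    (by simp only [MultilinearMap.compLinearMap_apply, MultilinearMap.mkPiAlgebra_apply,
          AlgHom.toLinearMap_apply, Pi.one_apply, map_one, Finset.prod_const_one])
    (by
      intro x y
      simp only [MultilinearMap.compLinearMap_apply, MultilinearMap.mkPiAlgebra_apply,
          AlgHom.toLinearMap_apply, Pi.mul_apply, map_mul, Finset.prod_mul_distrib])

theorem prod_pr_eq_tprod {r : ℕ} (h : Fin r → H) :
    ∏ t, pr t (h t) = (PiTensorProduct.tprod ℂ h : PowCoh H r) := by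
  have h2 : h = ∏ t, Pi.mulSingle t (h t) := (Finset.univ_prod_mulSingle h).symm
  conv_rhs => rw [h2]
  exact (PiTensorProduct.tprod_prod _ _).symm

theorem powLift_prod {R : Type*} [CommRing R] [Algebra ℂ R] {r : ℕ}
    (f : Fin r → (H →ₐ[ℂ] R)) (h : Fin r → H) :
    powLift f (∏ t, pr t (h t)) = ∏ t, f t (h t) := by
  rw [prod_pr_eq_tprod]
  show PiTensorProduct.lift _ (PiTensorProduct.tprod ℂ h) = _
  rw [PiTensorProduct.lift.tprod]
  simp only [MultilinearMap.compLinearMap_apply, MultilinearMap.mkPiAlgebra_apply,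
    AlgHom.toLinearMap_apply]

/-- The basis of the cohomology of `X ^ r` given by a basis of the cohomology of `X`. -/
noncomputable def powBasis {κ : Type*} (b : Module.Basis κ ℂ H) (r : ℕ) :
    Module.Basis (Fin r → κ) ℂ (PowCoh H r) :=
  Basis.piTensorProduct fun _ => b

theorem powBasis_apply {κ : Type*} (b : Module.Basis κ ℂ H) (r : ℕ) (s : Fin r → κ) :
    powBasis b r s = ∏ t, pr t (b (s t)) := by
  rw [prod_pr_eq_tprod]
  exact Basis.piTensorProduct_apply _ _

theorem powBasis_repr {κ : Type*} (b : Module.Basis κ ℂ H) {r : ℕ} (h : Fin r → H)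
    (s : Fin r → κ) : (powBasis b r).repr (∏ t, pr t (h t)) s = ∏ t, b.repr (h t) (s t) := by
  rw [prod_pr_eq_tprod]
  exact Basis.piTensorProduct_repr_tprod_apply _ _ _

attribute [irreducible] instCommRingPowCoh

/-- The Frobenius on the cohomology of `X ^ r`. -/
noncomputable def powFrob (φ : H →ₐ[ℂ] H) (r : ℕ) : PowCoh H r →ₐ[ℂ] PowCoh H r :=
  powLift fun t => (pr t).comp φ

/-- The pullback on cohomology along the morphism `X ^ r → X ^ s` sending `(x_0, ..., x_(r-1))` to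
`(x_(g 0), ..., x_(g (s - 1)))`. -/
noncomputable def pullback {r s : ℕ} (g : Fin s → Fin r) : PowCoh H s →ₐ[ℂ] PowCoh H r :=
  powLift fun t => pr (g t)

/-- `H^(2i)(X ^ r)`: the span of the `h_1 ⊗ ... ⊗ h_r` with `h_t` of degree `d_t`, where the sum of
the `d_t` is `i`. -/
noncomputable def powDeg (𝒜 : ℕ → Submodule ℂ H) (r i : ℕ) : Submodule ℂ (PowCoh H r) :=
  Submodule.span ℂ {x | ∃ (d : Fin r → ℕ) (h : Fin r → H),
    (∀ t, h t ∈ 𝒜 (d t)) ∧ ∑ t, d t = i ∧ x = ∏ t, pr t (h t)}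

/-- The Tate classes of codimension `i` on `X ^ r`: the elements of `H^(2i)(X ^ r)` on which the
Frobenius acts as multiplication by `Q ^ i`. -/
noncomputable def powTate (𝒜 : ℕ → Submodule ℂ H) (φ : H →ₐ[ℂ] H) (Q : ℂ) (r i : ℕ) :
    Submodule ℂ (PowCoh H r) :=
  powDeg 𝒜 r i ⊓ Module.End.eigenspace (powFrob φ r).toLinearMap (Q ^ i)

theorem powFrob_prod (φ : H →ₐ[ℂ] H) {r : ℕ} (h : Fin r → H) :
    powFrob φ r (∏ t, pr t (h t)) = ∏ t, pr t (φ (h t)) :=
  powLift_prod _ _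

/-- The Frobenius preserves the degree. -/
theorem powFrob_mem {𝒜 : ℕ → Submodule ℂ H} {φ : H →ₐ[ℂ] H}
    (hφ : ∀ i, ∀ x ∈ 𝒜 i, φ x ∈ 𝒜 i) (r i : ℕ) :
    ∀ x ∈ powDeg 𝒜 r i, (powFrob φ r).toLinearMap x ∈ powDeg 𝒜 r i := by
  intro x hx
  induction hx using Submodule.span_induction with
  | mem x hx =>
    obtain ⟨d, h, hh, hd, rfl⟩ := hx
    refine Submodule.subset_span ⟨d, fun t => φ (h t), fun t => hφ _ _ (hh t), hd, ?_⟩
    exact powFrob_prod φ h
  | zero => rw [map_zero]; exact Submodule.zero_mem _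
  | add x y _ _ hx hy => rw [map_add]; exact Submodule.add_mem _ hx hy
  | smul c x _ hx => rw [map_smul]; exact Submodule.smul_mem _ _ hx

/-- The Frobenius on `H^(2i)(X ^ r)`. -/
noncomputable def powFrobDeg {𝒜 : ℕ → Submodule ℂ H} {φ : H →ₐ[ℂ] H}
    (hφ : ∀ i, ∀ x ∈ 𝒜 i, φ x ∈ 𝒜 i) (r i : ℕ) : Module.End ℂ (powDeg 𝒜 r i) :=
  LinearMap.restrict (powFrob φ r).toLinearMap (powFrob_mem hφ r i)

/-- `det(1 - Q^{-s} Φ | E)^{-1}`. -/
noncomputable def detL {E : Type*} [AddCommGroup E] [Module ℂ E] (Φ : Module.End ℂ E) (Q : ℝ)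
    (s : ℂ) : ℂ :=
  (LinearMap.det (1 - ((Q : ℂ) ^ (-s)) • Φ))⁻¹

/-- The `L`-function `det(1 - Q^{-s} Frob | H^(2i)(X ^ r))^{-1}`. -/
noncomputable def powL {𝒜 : ℕ → Submodule ℂ H} {φ : H →ₐ[ℂ] H}
    (hφ : ∀ i, ∀ x ∈ 𝒜 i, φ x ∈ 𝒜 i) (Q : ℝ) (r i : ℕ) : ℂ → ℂ :=
  detL (powFrobDeg hφ r i) Q

/-- The subalgebra of the cohomology of `X ^ r` generated by the pullbacks, along the morphisms
`X ^ r → X × X` given by pairs of coordinates, of the Tate classes on `X × X`. -/
noncomputable def genAlg (𝒜 : ℕ → Submodule ℂ H) (φ : H →ₐ[ℂ] H) (Q : ℂ) (r : ℕ) :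
    Subalgebra ℂ (PowCoh H r) :=
  Algebra.adjoin ℂ {y | ∃ (g : Fin 2 → Fin r) (i : ℕ) (z : PowCoh H 2),
    z ∈ powTate 𝒜 φ Q 2 i ∧ y = pullback g z}

open Polynomial in
/-- The properties of the irreducible factor `f` of the characteristic polynomial of Frobenius on
the transcendental part of the second cohomology of a K3 surface over `F_q`, `q = p ^ a`, after an
extension of the ground field: the roots of `f` are algebraic integers, their complex absolute
values are `q`, no two distinct ones have a quotient which is a root of unity, the `p`-adic slopes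
are `1 - c`, `1` and `1 + c` for some `c > 0`.  Here `2 d` is the degree of `f` and `h` is the number
of roots of slope greater than `1`. -/
structure IsTransPoly (p : ℕ) [Fact p.Prime] (a : ℕ) (f : ℚ[X]) (d h : ℕ) : Prop where
  irreducible : Irreducible f
  isIntegral : ∀ z : ℂ, aeval z f = 0 → IsIntegral ℤ z
  norm_eq : ∀ z : ℂ, aeval z f = 0 → ‖z‖ = (p ^ a : ℕ)
  nondegenerate : ∀ x y : ℂ, aeval x f = 0 → aeval y f = 0 →
    ∀ N : ℕ, 0 < N → x ^ N = y ^ N → x = y
  natDegree_eq : f.natDegree = 2 * d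
  slopes : ∃ c : ℝ, 0 < c ∧ ∀ x : PadicAlgCl p, aeval x f = 0 →
    slope p a x = 1 - c ∨ slope p a x = 1 ∨ slope p a x = 1 + c
  height_eq : {x : PadicAlgCl p | aeval x f = 0 ∧ 1 < slope p a x}.ncard = h

open Polynomial in
/-- The graded ring `H = ⨁ 𝒜 i`, with `𝒜 i = H^(2i)(X)`, and its endomorphism `φ` satisfy the
hypotheses on a cohomology ring with its Frobenius: `φ` is graded and semisimple, it is
multiplication by `q ^ i` on `𝒜 i` for `i ≠ 1`, and its eigenvalues on `𝒜 1` are `q` or roots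
of `f`. -/
structure IsCohomology (q : ℕ) (f : ℚ[X]) (𝒜 : ℕ → Submodule ℂ H) (φ : H →ₐ[ℂ] H) : Prop where
  map_mem : ∀ i, ∀ x ∈ 𝒜 i, φ x ∈ 𝒜 i
  isSemisimple : Module.End.IsSemisimple φ.toLinearMap
  eq_of_ne_one : ∀ i ≠ 1, ∀ x ∈ 𝒜 i, φ x = (q : ℂ) ^ i • x
  eigenvalue : ∀ μ : ℂ, ∀ x ∈ 𝒜 1, x ≠ 0 → φ x = μ • x → μ = q ∨ aeval μ f = 0

end Pool.Agent.Work.MP_223b32_ag
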